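import Mathlib

set_option autoImplicit false
set_option linter.unusedSimpArgs false
set_option linter.unusedVariables false
set_option linter.style.longLine false

/-!
Boxes in `ℤ^n`, maximal `I`-families, the correlation inequality and its equality case.
(The first part follows the library module `R_seed8 ... MP_a656b1_co/ExactValue.lean`, with slices in
an arbitrary coordinate.)
-/

open Finset
open scoped FinsetFamily

namespace Pool.Agent.KS6_62.IU

variable {n : ℕ}

/-- the box `∏ [-m_i, m_i]` -/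
noncomputable def Box (m : Fin n → ℕ) : Finset (Fin n → ℤ) :=
  Fintype.piFinset (fun i => Icc (-(m i : ℤ)) (m i))

lemma mem_Box {m : Fin n → ℕ} {x : Fin n → ℤ} :
    x ∈ Box m ↔ ∀ i, -(m i : ℤ) ≤ x i ∧ x i ≤ m i := by
  simp [Box]

lemma neg_mem_Box {m : Fin n → ℕ} {x : Fin n → ℤ} (h : x ∈ Box m) : -x ∈ Box m := by
  rw [mem_Box] at h ⊢
  intro i
  have := h i
  simp only [Pi.neg_apply]
  omega

lemma zero_mem_Box (m : Fin n → ℕ) : (0 : Fin n → ℤ) ∈ Box m := by
  rw [mem_Box]
  intro i
  simp only [Pi.zero_apply]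
  omega

lemma card_Box (m : Fin n → ℕ) : #(Box m) = ∏ i, (2 * m i + 1) := by
  rw [Box, Fintype.card_piFinset]
  refine prod_congr rfl (fun i _ => ?_)
  rw [Int.card_Icc]
  omega

lemma mem_Box_update {m : Fin n → ℕ} {h : Fin n} {x : Fin n → ℤ} :
    x ∈ Box (Function.update m h 0) ↔ x ∈ Box m ∧ x h = 0 := by
  rw [mem_Box, mem_Box]
  constructor
  · intro hx
    refine ⟨fun i => ?_, ?_⟩
    · by_cases hi : i = h
      · subst hi
        have := hx i
        rw [Function.update_self] at this
        omega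
      · have := hx i
        rw [Function.update_of_ne hi] at this
        exact this
    · have := hx h
      rw [Function.update_self] at this
      omega
  · rintro ⟨hx, h0⟩ i
    by_cases hi : i = h
    · subst hi
      rw [Function.update_self, h0]
      simp
    · rw [Function.update_of_ne hi]
      exact hx i

lemma update_mem_Box {m : Fin n → ℕ} {x : Fin n → ℤ} (hx : x ∈ Box m) (h : Fin n) {j : ℤ}
    (hj : j ∈ Icc (-(m h : ℤ)) (m h)) : Function.update x h j ∈ Box m := by
  rw [mem_Box] at hx ⊢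
  intro i
  by_cases hi : i = h
  · subst hi
    rw [Function.update_self]
    exact mem_Icc.1 hj
  · rw [Function.update_of_ne hi]
    exact hx i

/-- slicing a subset of the box by the coordinate `h` -/
lemma card_slice (m : Fin n → ℕ) (h : Fin n) (P : (Fin n → ℤ) → Prop) [DecidablePred P] :
    #((Box m).filter P) = ∑ j ∈ Icc (-(m h : ℤ)) (m h),
      #((Box (Function.update m h 0)).filter (fun x => P (Function.update x h j))) := by
  rw [Finset.card_eq_sum_card_fiberwise (f := fun x => x h) (t := Icc (-(m h : ℤ)) (m h))]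
  · refine sum_congr rfl (fun j hj => ?_)
    refine Finset.card_bij' (fun x _ => Function.update x h 0) (fun x _ => Function.update x h j)
      ?_ ?_ ?_ ?_
    · intro x hx
      rw [mem_filter, mem_filter] at hx
      rw [mem_filter, mem_Box_update]
      obtain ⟨⟨hx1, hx2⟩, hx3⟩ := hx
      refine ⟨⟨update_mem_Box hx1 h (mem_Icc.2 (by omega)), Function.update_self _ _ _⟩, ?_⟩
      rw [Function.update_idem, ← hx3, Function.update_eq_self]
      exact hx2
    · intro x hx
      rw [mem_filter, mem_Box_update] at hx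
      rw [mem_filter, mem_filter]
      exact ⟨⟨update_mem_Box hx.1.1 h hj, hx.2⟩, Function.update_self _ _ _⟩
    · intro x hx
      rw [mem_filter] at hx
      rw [Function.update_idem, ← hx.2, Function.update_eq_self]
    · intro x hx
      rw [mem_filter, mem_Box_update] at hx
      rw [Function.update_idem]
      have := hx.1.2
      rw [← this, Function.update_eq_self]
  · intro x hx
    rw [mem_coe, mem_filter, mem_Box] at hx
    exact mem_coe.2 (mem_Icc.2 (hx.1 h))

lemma card_Box_slice (m : Fin n → ℕ) (h : Fin n) :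
    #(Box m) = (2 * m h + 1) * #(Box (Function.update m h 0)) := by
  have h1 := card_slice m h (fun _ => True)
  simp only [filter_true] at h1
  rw [h1, sum_const, Int.card_Icc, smul_eq_mul]
  congr 1
  omega

lemma sum_slice (m : Fin n → ℕ) (h : Fin n) :
    ∑ i, m i = m h + ∑ i, Function.update m h 0 i := by
  rw [Finset.sum_update_of_mem (mem_univ h), ← Finset.add_sum_erase _ _ (mem_univ h)]
  simp [Finset.sdiff_singleton_eq_erase]

/-- an up-set of the box containing exactly one of `x`, `-x` for every `x ≠ 0` in the box, and not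
containing `0` -/
structure Good (m : Fin n → ℕ) (U : Finset (Fin n → ℤ)) : Prop where
  sub : U ⊆ Box m
  up : ∀ x ∈ U, ∀ y ∈ Box m, x ≤ y → y ∈ U
  zero : (0 : Fin n → ℤ) ∉ U
  anti : ∀ x ∈ Box m, x ≠ 0 → x ∈ U ∨ -x ∈ U
  excl : ∀ x ∈ U, -x ∉ U

lemma Good.card {m : Fin n → ℕ} {U : Finset (Fin n → ℤ)} (h : Good m U) :
    2 * #U + 1 = #(Box m) := by
  classical
  have h1 : Box m = insert 0 (U ∪ U.image (fun x => -x)) := by
    ext x
    rw [mem_insert, mem_union, mem_image]
    constructor
    · intro hx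
      by_cases h0 : x = 0
      · exact Or.inl h0
      · rcases h.anti x hx h0 with h2 | h2
        · exact Or.inr (Or.inl h2)
        · exact Or.inr (Or.inr ⟨-x, h2, neg_neg x⟩)
    · rintro (rfl | h2 | ⟨y, hy, rfl⟩)
      · exact zero_mem_Box m
      · exact h.sub h2
      · exact neg_mem_Box (h.sub hy)
  have h2 : Disjoint U (U.image (fun x => -x)) := by
    rw [disjoint_left]
    intro x hx hx'
    obtain ⟨y, hy, rfl⟩ := mem_image.1 hx'
    exact h.excl y hy hx
  have h3 : (0 : Fin n → ℤ) ∉ U ∪ U.image (fun x => -x) := by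
    rw [mem_union, mem_image]
    rintro (h4 | ⟨y, hy, h5⟩)
    · exact h.zero h4
    · rw [neg_eq_zero.1 h5] at hy
      exact h.zero hy
  rw [h1, card_insert_of_notMem h3, card_union_of_disjoint h2,
    card_image_of_injective _ neg_injective]
  omega

/-- nonnegative nonzero vectors lie in every good set -/
lemma Good.nonneg {m : Fin n → ℕ} {U : Finset (Fin n → ℤ)} (h : Good m U) {x : Fin n → ℤ}
    (hx : x ∈ Box m) (h0 : 0 ≤ x) (hne : x ≠ 0) : x ∈ U := by
  rcases h.anti x hx hne with h1 | h1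
  · exact h1
  · refine h.up _ h1 x hx ?_
    intro i
    have := h0 i
    simp only [Pi.neg_apply, Pi.zero_apply] at this ⊢
    omega

/-- the correlation inequality for up-sets of a box -/
lemma kleitman (m : Fin n → ℕ) (U V : Finset (Fin n → ℤ)) (hU : U ⊆ Box m)
    (hV : V ⊆ Box m) (hU' : ∀ x ∈ U, ∀ y ∈ Box m, x ≤ y → y ∈ U)
    (hV' : ∀ x ∈ V, ∀ y ∈ Box m, x ≤ y → y ∈ V) :
    #U * #V ≤ #(Box m) * #(U ∩ V) := by
  refine (le_card_infs_mul_card_sups U V).trans (Nat.mul_le_mul ?_ ?_)
  · apply card_le_card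
    intro z hz
    obtain ⟨x, hx, y, hy, rfl⟩ := mem_infs.1 hz
    have h1 := mem_Box.1 (hU hx)
    have h2 := mem_Box.1 (hV hy)
    rw [mem_Box]
    intro i
    have := h1 i
    have := h2 i
    simp only [Pi.inf_apply]
    constructor
    · exact le_inf (h1 i).1 (h2 i).1
    · exact inf_le_left.trans (h1 i).2
  · apply card_le_card
    intro z hz
    obtain ⟨x, hx, y, hy, rfl⟩ := mem_sups.1 hz
    have h1 := mem_Box.1 (hU hx)
    have h2 := mem_Box.1 (hV hy)
    have h3 : x ⊔ y ∈ Box m := by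
      rw [mem_Box]
      intro i
      simp only [Pi.sup_apply]
      exact ⟨(h1 i).1.trans le_sup_left, sup_le (h1 i).2 (h2 i).2⟩
    exact mem_inter.2 ⟨hU' x hx _ h3 le_sup_left, hV' y hy _ h3 le_sup_right⟩

/-- the arithmetic of the induction step -/
lemma arith (N u v w : ℕ) (h : u * v ≤ N * w) (hu : N + 1 ≤ 2 * u) (hv : N + 1 ≤ 2 * v)
    (hN : 0 < N) : N + 1 + 2 * u + 2 * v ≤ 2 * N + 4 * w := by
  by_contra hcon
  push Not at hcon
  have h1 : 2 * N + 4 * w ≤ N + 2 * u + 2 * v := by omega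
  zify at *
  nlinarith [mul_le_mul_of_nonneg_left h1 (by omega : (0 : ℤ) ≤ N)]

lemma update_le_update {x y : Fin n → ℤ} {j k : ℤ} (h : Fin n) (hjk : j ≤ k) (hxy : x ≤ y) :
    Function.update x h j ≤ Function.update y h k := by
  intro i
  by_cases hi : i = h
  · subst hi
    rw [Function.update_self, Function.update_self]
    exact hjk
  · rw [Function.update_of_ne hi, Function.update_of_ne hi]
    exact hxy i

lemma neg_update (x : Fin n → ℤ) (h : Fin n) (j : ℤ) :
    -(Function.update x h j) = Function.update (-x) h (-j) := by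
  ext i
  by_cases hi : i = h
  · subst hi
    simp
  · simp [Function.update_of_ne hi]

open Classical in
/-- the slice of `W` at `x h = j` -/
noncomputable def Sl (m : Fin n → ℕ) (h : Fin n) (W : Finset (Fin n → ℤ)) (j : ℤ) :
    Finset (Fin n → ℤ) :=
  (Box (Function.update m h 0)).filter (fun x => Function.update x h j ∈ W)

lemma mem_Sl {m : Fin n → ℕ} {h : Fin n} {W : Finset (Fin n → ℤ)} {j : ℤ} {x : Fin n → ℤ} :
    x ∈ Sl m h W j ↔ x ∈ Box (Function.update m h 0) ∧ Function.update x h j ∈ W := mem_filter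

section pair

variable {m : Fin n → ℕ} (h : Fin n)

lemma Sl_up {W : Finset (Fin n → ℤ)} (hW : Good m W) {j : ℤ} (hj : j ∈ Icc (-(m h : ℤ)) (m h)) :
    ∀ x ∈ Sl m h W j, ∀ y ∈ Box (Function.update m h 0), x ≤ y → y ∈ Sl m h W j := by
  intro x hx y hy hxy
  rw [mem_Sl] at hx ⊢
  exact ⟨hy, hW.up _ hx.2 _ (update_mem_Box (mem_Box_update.1 hy).1 h hj)
    (update_le_update h le_rfl hxy)⟩

lemma Sl_dual {W : Finset (Fin n → ℤ)} (hW : Good m W) {j : ℤ} (hj : j ∈ Icc (1 : ℤ) (m h)) :
    ∀ x ∈ Box (Function.update m h 0), (x ∈ Sl m h W (-j) ↔ -x ∉ Sl m h W j) := by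
  intro x hx
  rw [mem_Icc] at hj
  rw [mem_Sl, mem_Sl]
  have hbox : Function.update x h (-j) ∈ Box m :=
    update_mem_Box (mem_Box_update.1 hx).1 h (mem_Icc.2 (by omega))
  have hne : Function.update x h (-j) ≠ 0 := fun h0 => by
    have := congrFun h0 h
    rw [Function.update_self, Pi.zero_apply] at this
    omega
  have h2 : -(Function.update x h (-j)) = Function.update (-x) h j := by
    rw [neg_update, neg_neg]
  constructor
  · rintro ⟨-, h3⟩ ⟨-, h4⟩
    exact hW.excl _ h3 (h2 ▸ h4)
  · intro h3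
    refine ⟨hx, ?_⟩
    rcases hW.anti _ hbox hne with h4 | h4
    · exact h4
    · exact absurd ⟨neg_mem_Box hx, h2 ▸ h4⟩ h3

lemma Sl_big {W : Finset (Fin n → ℤ)} (hW : Good m W) {j : ℤ} (hj : j ∈ Icc (1 : ℤ) (m h)) :
    #(Box (Function.update m h 0)) + 1 ≤ 2 * #(Sl m h W j) := by
  classical
  have hj' := mem_Icc.1 hj
  set B := Box (Function.update m h 0) with hB
  have hin : ∀ x ∈ B, x ∈ Sl m h W j ∨ -x ∈ Sl m h W j := by
    intro x hx
    by_cases h1 : x ∈ Sl m h W (-j)
    · left
      rw [mem_Sl] at h1 ⊢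
      exact ⟨hx, hW.up _ h1.2 _ (update_mem_Box (mem_Box_update.1 hx).1 h (mem_Icc.2 (by omega)))
        (update_le_update h (by omega) le_rfl)⟩
    · right
      by_contra h2
      exact h1 ((Sl_dual h hW hj x hx).2 h2)
  have h0 : (0 : Fin n → ℤ) ∈ Sl m h W j := by
    rcases hin 0 (zero_mem_Box _) with h | h
    · exact h
    · rwa [neg_zero] at h
  have h1 : B ⊆ Sl m h W j ∪ (Sl m h W j).image (fun x => -x) := by
    intro x hx
    rcases hin x hx with h | h
    · exact mem_union_left _ h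
    · exact mem_union_right _ (mem_image.2 ⟨-x, h, neg_neg x⟩)
  have h2 : 0 < #(Sl m h W j ∩ (Sl m h W j).image (fun x => -x)) :=
    card_pos.2 ⟨0, mem_inter.2 ⟨h0, mem_image.2 ⟨0, h0, neg_zero⟩⟩⟩
  have h3 := card_union_add_card_inter (Sl m h W j) ((Sl m h W j).image (fun x => -x))
  rw [card_image_of_injective _ neg_injective] at h3
  have h4 := card_le_card h1
  omega

lemma Sl_pair {U V : Finset (Fin n → ℤ)} (hU : Good m U) (hV : Good m V) {j : ℤ}
    (hj : j ∈ Icc (1 : ℤ) (m h)) :
    #(Box (Function.update m h 0)) + 1 ≤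
      2 * (#(Sl m h U j ∩ Sl m h V j) + #(Sl m h U (-j) ∩ Sl m h V (-j))) := by
  classical
  have hj' := mem_Icc.1 hj
  have hjI : j ∈ Icc (-(m h : ℤ)) (m h) := mem_Icc.2 (by omega)
  set B := Box (Function.update m h 0) with hB
  set N := #B with hN
  have hN0 : 0 < N := card_pos.2 ⟨0, zero_mem_Box _⟩
  have hk := kleitman (Function.update m h 0) (Sl m h U j) (Sl m h V j) (filter_subset _ _)
    (filter_subset _ _) (Sl_up h hU hjI) (Sl_up h hV hjI)
  have h1 : #(Sl m h U (-j) ∩ Sl m h V (-j)) + #(Sl m h U j ∪ Sl m h V j) = N := by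
    have h2 : Sl m h U (-j) ∩ Sl m h V (-j) =
        (B \ (Sl m h U j ∪ Sl m h V j)).image (fun x => -x) := by
      ext x
      rw [mem_inter, mem_image]
      constructor
      · rintro ⟨hx1, hx2⟩
        have hxB := (mem_Sl.1 hx1).1
        refine ⟨-x, mem_sdiff.2 ⟨neg_mem_Box hxB, ?_⟩, neg_neg x⟩
        rw [mem_union]
        rintro (h' | h')
        · exact (Sl_dual h hU hj x hxB).1 hx1 h'
        · exact (Sl_dual h hV hj x hxB).1 hx2 h'
      · rintro ⟨y, hy, rfl⟩
        rw [mem_sdiff, mem_union, not_or] at hy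
        have hyB := neg_mem_Box hy.1
        refine ⟨(Sl_dual h hU hj _ hyB).2 ?_, (Sl_dual h hV hj _ hyB).2 ?_⟩
        · rw [neg_neg]; exact hy.2.1
        · rw [neg_neg]; exact hy.2.2
    have h4 : #(B \ (Sl m h U j ∪ Sl m h V j)) + #(Sl m h U j ∪ Sl m h V j) = #B :=
      card_sdiff_add_card_eq_card (union_subset (filter_subset _ _) (filter_subset _ _))
    rw [h2, card_image_of_injective _ neg_injective]
    exact h4
  have h3 := card_union_add_card_inter (Sl m h U j) (Sl m h V j)
  have h4 := arith N _ _ _ hk (Sl_big h hU hj) (Sl_big h hV hj) hN0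
  omega

/-- the middle slice -/
lemma Sl_zero (W : Finset (Fin n → ℤ)) (hW : W ⊆ Box m) :
    Sl m h W 0 = W.filter (fun x => x h = 0) := by
  ext x
  rw [mem_Sl, mem_filter, mem_Box_update]
  constructor
  · rintro ⟨⟨h1, h2⟩, h3⟩
    rw [← h2, Function.update_eq_self] at h3
    exact ⟨h3, h2⟩
  · rintro ⟨h1, h2⟩
    refine ⟨⟨hW h1, h2⟩, ?_⟩
    rw [← h2, Function.update_eq_self]
    exact h1

lemma good_slice {W : Finset (Fin n → ℤ)} (hW : Good m W) :
    Good (Function.update m h 0) (W.filter (fun x => x h = 0)) := by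
  refine ⟨?_, ?_, ?_, ?_, ?_⟩
  · intro x hx
    rw [mem_filter] at hx
    exact mem_Box_update.2 ⟨hW.sub hx.1, hx.2⟩
  · intro x hx y hy hxy
    rw [mem_filter] at hx ⊢
    rw [mem_Box_update] at hy
    exact ⟨hW.up x hx.1 y hy.1 hxy, hy.2⟩
  · intro h0
    exact hW.zero (mem_filter.1 h0).1
  · intro x hx hx0
    rw [mem_Box_update] at hx
    rcases hW.anti x hx.1 hx0 with h1 | h1
    · exact Or.inl (mem_filter.2 ⟨h1, hx.2⟩)
    · exact Or.inr (mem_filter.2 ⟨h1, by rw [Pi.neg_apply, hx.2, neg_zero]⟩)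
  · intro x hx hx'
    exact hW.excl x (mem_filter.1 hx).1 (mem_filter.1 hx').1

/-- summation over the slices -/
lemma slice_sum {U V : Finset (Fin n → ℤ)} (hU : Good m U) (hV : Good m V) :
    #(U ∩ V) = #(U.filter (fun x => x h = 0) ∩ V.filter (fun x => x h = 0)) +
      ∑ j ∈ Icc (1 : ℤ) (m h),
        (#(Sl m h U j ∩ Sl m h V j) + #(Sl m h U (-j) ∩ Sl m h V (-j))) := by
  classical
  have hslice : #(U ∩ V) = ∑ j ∈ Icc (-(m h : ℤ)) (m h), #(Sl m h U j ∩ Sl m h V j) := by
    have h1 : U ∩ V = (Box m).filter (fun x => x ∈ U ∩ V) := by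
      ext x
      rw [mem_filter]
      exact ⟨fun h => ⟨hU.sub (mem_inter.1 h).1, h⟩, fun h => h.2⟩
    rw [h1, card_slice m h]
    refine sum_congr rfl (fun j _ => ?_)
    congr 1
    ext x
    rw [mem_filter, mem_inter, mem_inter, mem_Sl, mem_Sl]
    tauto
  have h1 : Icc (-(m h : ℤ)) (m h) =
      insert 0 (Icc (1 : ℤ) (m h) ∪ (Icc (1 : ℤ) (m h)).image (fun j => -j)) := by
    ext j
    rw [mem_insert, mem_union, mem_image, mem_Icc, mem_Icc]
    constructor
    · intro hj
      rcases lt_trichotomy j 0 with h | h | h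
      · exact Or.inr (Or.inr ⟨-j, mem_Icc.2 (by omega), neg_neg j⟩)
      · exact Or.inl h
      · exact Or.inr (Or.inl (by omega))
    · rintro (h | h | ⟨k, hk, rfl⟩)
      · omega
      · omega
      · rw [mem_Icc] at hk
        omega
  have h2 : Disjoint (Icc (1 : ℤ) (m h)) ((Icc (1 : ℤ) (m h)).image (fun j => -j)) := by
    rw [disjoint_left]
    intro j hj hj'
    obtain ⟨k, hk, rfl⟩ := mem_image.1 hj'
    rw [mem_Icc] at hj hk
    omega
  have h3 : (0 : ℤ) ∉ Icc (1 : ℤ) (m h) ∪ (Icc (1 : ℤ) (m h)).image (fun j => -j) := by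
    rw [mem_union, mem_image]
    rintro (h | ⟨k, hk, h⟩)
    · rw [mem_Icc] at h; omega
    · rw [mem_Icc] at hk; omega
  rw [hslice, h1, sum_insert h3, sum_union h2, sum_image (fun a _ b _ h => neg_injective h),
    sum_add_distrib, Sl_zero h U hU.sub, Sl_zero h V hV.sub]

lemma slice_mono {U V : Finset (Fin n → ℤ)} (hU : Good m U) (hV : Good m V) :
    4 * #(U.filter (fun x => x h = 0) ∩ V.filter (fun x => x h = 0)) +
      2 * (m h * (#(Box (Function.update m h 0)) + 1)) ≤ 4 * #(U ∩ V) := by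
  have h1 := slice_sum h hU hV
  have hsum : ∑ _j ∈ Icc (1 : ℤ) (m h), (#(Box (Function.update m h 0)) + 1) ≤
      ∑ j ∈ Icc (1 : ℤ) (m h),
        2 * (#(Sl m h U j ∩ Sl m h V j) + #(Sl m h U (-j) ∩ Sl m h V (-j))) :=
    sum_le_sum (fun j hj => Sl_pair h hU hV hj)
  rw [sum_const, Int.card_Icc, smul_eq_mul, ← mul_sum] at hsum
  have hm0 : ((m h : ℤ) + 1 - 1).toNat = m h := by omega
  rw [hm0] at hsum
  omega

end pair

/-- Any two maximal `I`-families `U`, `V` satisfy `4 |U ∩ V| ≥ |M| - 1 + ∑ e_i`. -/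
theorem correlation (s : ℕ) : ∀ (m : Fin n → ℕ) (U V : Finset (Fin n → ℤ)),
    #(univ.filter (fun i => m i ≠ 0)) = s → Good m U → Good m V →
      #(Box m) + 2 * ∑ i, m i ≤ 4 * #(U ∩ V) + 1 := by
  induction s with
  | zero =>
    intro m U V hs hU hV
    have hm : ∀ i, m i = 0 := by
      intro i
      by_contra hi
      have := Finset.card_eq_zero.1 hs
      have h2 : i ∈ univ.filter (fun i => m i ≠ 0) := mem_filter.2 ⟨mem_univ i, hi⟩
      rw [this] at h2
      exact absurd h2 (notMem_empty _)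
    rw [card_Box]
    simp [hm]
  | succ s ih =>
    intro m U V hs hU hV
    have hne : (univ.filter (fun i => m i ≠ 0)).Nonempty := by
      rw [← card_pos]
      omega
    obtain ⟨h, hh⟩ := hne
    have hs' : #(univ.filter (fun i => Function.update m h 0 i ≠ 0)) = s := by
      have : univ.filter (fun i => Function.update m h 0 i ≠ 0) =
          (univ.filter (fun i => m i ≠ 0)).erase h := by
        ext i
        rw [mem_filter, mem_erase, mem_filter]
        by_cases hi : i = h
        · subst hi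
          simp
        · rw [Function.update_of_ne hi]
          simp [hi]
      rw [this, card_erase_of_mem hh, hs]
      rfl
    have h1 := ih _ _ _ hs' (good_slice h hU) (good_slice h hV)
    have h2 := slice_mono h hU hV
    have h3 := card_Box_slice m h
    have h4 := sum_slice m h
    rw [h3, h4]
    have h5 : (2 * m h + 1) * #(Box (Function.update m h 0)) =
        2 * (m h * #(Box (Function.update m h 0))) + #(Box (Function.update m h 0)) := by ring
    have h6 : m h * (#(Box (Function.update m h 0)) + 1) =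
        m h * #(Box (Function.update m h 0)) + m h := by ring
    rw [h5]
    rw [h6] at h2
    omega

/-- equality in the correlation inequality -/
def Tight (m : Fin n → ℕ) (U V : Finset (Fin n → ℤ)) : Prop :=
  4 * #(U ∩ V) + 1 = #(Box m) + 2 * ∑ i, m i

lemma tight_slice {m : Fin n → ℕ} {U V : Finset (Fin n → ℤ)} (h : Fin n) (hU : Good m U)
    (hV : Good m V) (ht : Tight m U V) :
    Tight (Function.update m h 0) (U.filter (fun x => x h = 0)) (V.filter (fun x => x h = 0)) ∧
    ∀ j ∈ Icc (1 : ℤ) (m h),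
      2 * (#(Sl m h U j ∩ Sl m h V j) + #(Sl m h U (-j) ∩ Sl m h V (-j))) =
        #(Box (Function.update m h 0)) + 1 := by
  have h1 := correlation _ _ _ _ rfl (good_slice h hU) (good_slice h hV)
  have h2 := slice_sum h hU hV
  have h3 := card_Box_slice m h
  have h4 := sum_slice m h
  have h5 : (2 * m h + 1) * #(Box (Function.update m h 0)) =
      2 * (m h * #(Box (Function.update m h 0))) + #(Box (Function.update m h 0)) := by ring
  have h6 : m h * (#(Box (Function.update m h 0)) + 1) =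
      m h * #(Box (Function.update m h 0)) + m h := by ring
  have hsum : ∑ _j ∈ Icc (1 : ℤ) (m h), (#(Box (Function.update m h 0)) + 1) ≤
      ∑ j ∈ Icc (1 : ℤ) (m h),
        2 * (#(Sl m h U j ∩ Sl m h V j) + #(Sl m h U (-j) ∩ Sl m h V (-j))) :=
    sum_le_sum (fun j hj => Sl_pair h hU hV hj)
  have hsc : ∑ _j ∈ Icc (1 : ℤ) (m h), (#(Box (Function.update m h 0)) + 1) =
      m h * #(Box (Function.update m h 0)) + m h := by
    rw [sum_const, Int.card_Icc, smul_eq_mul, ← h6]
    congr 1
    omega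
  unfold Tight at ht ⊢
  rw [h3, h4, h5] at ht
  have hs2 := hsum
  rw [hsc, ← mul_sum] at hs2
  have hT : 4 * #(U.filter (fun x => x h = 0) ∩ V.filter (fun x => x h = 0)) + 1 =
      #(Box (Function.update m h 0)) + 2 * ∑ i, Function.update m h 0 i := by omega
  refine ⟨hT, fun j hj => ?_⟩
  have heq : ∑ _j ∈ Icc (1 : ℤ) (m h), (#(Box (Function.update m h 0)) + 1) =
      ∑ j ∈ Icc (1 : ℤ) (m h),
        2 * (#(Sl m h U j ∩ Sl m h V j) + #(Sl m h U (-j) ∩ Sl m h V (-j))) := by
    rw [hsc, ← mul_sum]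
    omega
  have := (Finset.sum_eq_sum_iff_of_le (fun j hj => Sl_pair h hU hV hj)).1 heq j hj
  exact this.symm

end Pool.Agent.KS6_62.IU
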