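import Pool.Agent.KS6_62.IU.Uniq

set_option autoImplicit false
set_option linter.unusedSimpArgs false
set_option linter.unusedVariables false
set_option linter.style.longLine false

/-!
The extremal families.
-/

open Finset

namespace Pool.Agent.KS6_62.IU

variable {n : ℕ}

open Classical in
/-- Every linear order of the coordinates gives a tight pair. -/
theorem lex_tight (s : ℕ) : ∀ (m : Fin n → ℕ) (r : Fin n → Fin n → Prop),
    #(univ.filter (fun i => m i ≠ 0)) = s → IsLin m r →
    Tight m ((Box m).filter (Lex r)) ((Box m).filter (Lex (flip r))) := by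
  induction s with
  | zero =>
    intro m r hs hlin
    have hm : ∀ i, m i = 0 := by
      intro i
      by_contra hi
      have := Finset.card_eq_zero.1 hs
      have h2 : i ∈ univ.filter (fun i => m i ≠ 0) := mem_filter.2 ⟨mem_univ i, hi⟩
      rw [this] at h2
      exact absurd h2 (notMem_empty _)
    have h0 : (Box m).filter (Lex r) ∩ (Box m).filter (Lex (flip r)) = ∅ := by
      rw [eq_empty_iff_forall_notMem]
      intro x hx
      rw [mem_inter, mem_filter] at hx
      obtain ⟨⟨hxB, i, hi, -⟩, -⟩ := hx
      exact absurd (hm i) (supp_of_ne hxB (by omega))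
    unfold Tight
    rw [h0, card_Box]
    simp [hm]
  | succ s ih =>
    intro m r hs hlin
    set S := univ.filter (fun i => m i ≠ 0) with hS
    have memS : ∀ i, i ∈ S ↔ m i ≠ 0 := fun i => by rw [hS, mem_filter]; simp
    obtain ⟨a, haS, ha⟩ := exists_first hlin S (card_pos.1 (by omega)) (fun i hi => (memS i).1 hi)
    have hma := (memS a).1 haS
    have hs' : #(univ.filter (fun i => Function.update m a 0 i ≠ 0)) = s := by
      have : univ.filter (fun i => Function.update m a 0 i ≠ 0) = S.erase a := by
        ext i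
        rw [mem_filter, mem_erase, memS]
        by_cases hi : i = a
        · subst hi
          simp
        · rw [Function.update_of_ne hi]
          simp [hi]
      rw [this, card_erase_of_mem haS, hs]
      rfl
    have ne_of : ∀ i, Function.update m a 0 i ≠ 0 → m i ≠ 0 := by
      intro i hi
      by_cases hia : i = a
      · subst hia
        rw [Function.update_self] at hi
        exact absurd rfl hi
      · rwa [Function.update_of_ne hia] at hi
    have hlin' : IsLin (Function.update m a 0) r :=
      ⟨fun i k hik hi hk => hlin.total i k hik (ne_of i hi) (ne_of k hk),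
        fun i k hik hi hk => hlin.asymm i k hik (ne_of i hi) (ne_of k hk),
        fun i j k hij hjk hik hi hj hk =>
          hlin.trans i j k hij hjk hik (ne_of i hi) (ne_of j hj) (ne_of k hk)⟩
    have h1 := ih _ r hs' hlin'
    have gU := good_lex hlin
    have gV := good_lex hlin.flip
    have h2 := slice_sum a gU gV
    have hU0 : ((Box m).filter (Lex r)).filter (fun x => x a = 0) =
        (Box (Function.update m a 0)).filter (Lex r) := by
      ext x
      rw [mem_filter, mem_filter, mem_filter, mem_Box_update]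
      tauto
    have hV0 : ((Box m).filter (Lex (flip r))).filter (fun x => x a = 0) =
        (Box (Function.update m a 0)).filter (Lex (flip r)) := by
      ext x
      rw [mem_filter, mem_filter, mem_filter, mem_Box_update]
      tauto
    rw [hU0, hV0] at h2
    set B := Box (Function.update m a 0) with hB
    have hj : ∀ j ∈ Icc (1 : ℤ) (m a),
        2 * (#(Sl m a ((Box m).filter (Lex r)) j ∩ Sl m a ((Box m).filter (Lex (flip r))) j) +
          #(Sl m a ((Box m).filter (Lex r)) (-j) ∩ Sl m a ((Box m).filter (Lex (flip r))) (-j))) =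
          #B + 1 := by
      intro j hj
      rw [mem_Icc] at hj
      have e1 : Sl m a ((Box m).filter (Lex r)) (-j) = ∅ := by
        rw [eq_empty_iff_forall_notMem]
        intro x hx
        rw [mem_Sl, mem_filter] at hx
        obtain ⟨hxB, hbox, p, hp, hp'⟩ := hx
        have hpa : a ≠ p := by
          rintro rfl
          rw [Function.update_self] at hp
          omega
        have h3 := hp' a hpa (by rw [Function.update_self]; omega)
        have hpm : m p ≠ 0 := supp_of_ne hbox (by omega)
        exact hlin.asymm a p hpa hma hpm (ha p ((memS p).2 hpm) hpa.symm) h3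
      have e2 : Sl m a ((Box m).filter (Lex r)) j ∩ Sl m a ((Box m).filter (Lex (flip r))) j =
          insert 0 (B.filter (Lex (flip r))) := by
        ext x
        rw [mem_inter, mem_Sl, mem_Sl, mem_filter, mem_filter, mem_insert, mem_filter]
        constructor
        · rintro ⟨-, hxB, hbox, p, hp, hp'⟩
          have hxa : x a = 0 := (mem_Box_update.1 hxB).2
          by_cases hpa : p = a
          · left
            funext l
            rw [Pi.zero_apply]
            by_cases hla : l = a
            · rw [hla]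
              exact hxa
            · by_contra hxl
              have hml : m l ≠ 0 := supp_of_ne (mem_Box_update.1 hxB).1 hxl
              have h3 : r l p := hp' l (by rw [hpa]; exact hla)
                (by rw [Function.update_of_ne hla]; exact hxl)
              rw [hpa] at h3
              exact hlin.asymm a l (Ne.symm hla) hma hml (ha l ((memS l).2 hml) hla) h3
          · right
            refine ⟨hxB, p, ?_, fun l hl hxl => ?_⟩
            · rwa [Function.update_of_ne hpa] at hp
            · have hla : l ≠ a := by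
                rintro rfl
                exact hxl hxa
              exact hp' l hl (by rw [Function.update_of_ne hla]; exact hxl)
        · intro hx
          have hxB : x ∈ B := by
            rcases hx with rfl | hx
            · exact zero_mem_Box _
            · exact hx.1
          have hbox : Function.update x a j ∈ Box m :=
            update_mem_Box (mem_Box_update.1 hxB).1 a (mem_Icc.2 (by omega))
          refine ⟨⟨hxB, hbox, a, by rw [Function.update_self]; omega, fun l hl hxl => ?_⟩,
            hxB, hbox, ?_⟩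
          · exact ha l ((memS l).2 (supp_of_ne hbox hxl)) hl
          · rcases hx with rfl | ⟨-, p, hp, hp'⟩
            · refine ⟨a, by rw [Function.update_self]; omega, fun l hl hxl => ?_⟩
              rw [Function.update_of_ne hl, Pi.zero_apply] at hxl
              exact absurd rfl hxl
            · have hxa : x a = 0 := (mem_Box_update.1 hxB).2
              have hpa : p ≠ a := by
                rintro rfl
                omega
              refine ⟨p, by rw [Function.update_of_ne hpa]; exact hp, fun l hl hxl => ?_⟩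
              by_cases hla : l = a
              · rw [hla]
                have hpm : m p ≠ 0 := supp_of_ne (mem_Box_update.1 hxB).1 (by omega)
                exact ha p ((memS p).2 hpm) hpa
              · rw [Function.update_of_ne hla] at hxl
                exact hp' l hl hxl
      have h0n : (0 : Fin n → ℤ) ∉ B.filter (Lex (flip r)) := (good_lex hlin'.flip).zero
      have h4 := (good_lex hlin'.flip).card
      rw [e1, e2, empty_inter, card_empty, card_insert_of_notMem h0n, ← h4]
      ring
    have h5 : ∑ j ∈ Icc (1 : ℤ) (m a),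
        2 * (#(Sl m a ((Box m).filter (Lex r)) j ∩ Sl m a ((Box m).filter (Lex (flip r))) j) +
          #(Sl m a ((Box m).filter (Lex r)) (-j) ∩ Sl m a ((Box m).filter (Lex (flip r))) (-j))) =
        m a * #B + m a := by
      rw [sum_congr rfl hj, sum_const, Int.card_Icc, smul_eq_mul]
      have : ((m a : ℤ) + 1 - 1).toNat = m a := by omega
      rw [this]
      ring
    rw [← mul_sum] at h5
    unfold Tight at h1 ⊢
    rw [← hB] at h1
    rw [card_Box_slice m a, sum_slice m a, ← hB]
    have h6 : (2 * m a + 1) * #B = 2 * (m a * #B) + #B := by ring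
    rw [h6]
    omega

/-- every `I`-family is contained in a maximal one -/
lemma exists_good (m : Fin n → ℕ) (F : Finset (Fin n → ℤ)) (hF : F ⊆ Box m)
    (hI : ∀ x ∈ F, ∀ y ∈ F, ∃ i, 0 < x i + y i) : ∃ U, Good m U ∧ F ⊆ U := by
  classical
  let fam := (Box m).powerset.filter
    (fun G => F ⊆ G ∧ ∀ x ∈ G, ∀ y ∈ G, ∃ i, 0 < x i + y i)
  have hne : fam.Nonempty := ⟨F, mem_filter.2 ⟨mem_powerset.2 hF, Subset.refl _, hI⟩⟩
  obtain ⟨U, hU, hmax⟩ := exists_max_image fam card hne
  obtain ⟨hUB, hFU, hUI⟩ := mem_filter.1 hU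
  rw [mem_powerset] at hUB
  have hadd : ∀ z ∈ Box m, (∃ i, 0 < z i + z i) → (∀ x ∈ U, ∃ i, 0 < x i + z i) → z ∈ U := by
    intro z hz hzz hzU
    by_contra hnot
    have h1 : insert z U ∈ fam := by
      refine mem_filter.2 ⟨mem_powerset.2 (insert_subset hz hUB),
        hFU.trans (subset_insert _ _), ?_⟩
      intro x hx y hy
      rcases mem_insert.1 hx with hx' | hx'
      · rcases mem_insert.1 hy with hy' | hy'
        · rw [hx', hy']; exact hzz
        · obtain ⟨i, hi⟩ := hzU y hy'
          exact ⟨i, by rw [hx', add_comm]; exact hi⟩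
      · rcases mem_insert.1 hy with hy' | hy'
        · rw [hy']; exact hzU x hx'
        · exact hUI x hx' y hy'
    have h2 := hmax _ h1
    rw [card_insert_of_notMem hnot] at h2
    omega
  have hup : ∀ x ∈ U, ∀ y ∈ Box m, x ≤ y → y ∈ U := by
    intro x hx y hy hxy
    apply hadd y hy
    · obtain ⟨i, hi⟩ := hUI x hx x hx
      have h5 : x i ≤ y i := hxy i
      exact ⟨i, by omega⟩
    · intro z hz
      obtain ⟨i, hi⟩ := hUI z hz x hx
      have h5 : x i ≤ y i := hxy i
      exact ⟨i, by omega⟩
  refine ⟨U, ⟨hUB, hup, ?_, ?_, ?_⟩, hFU⟩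
  · intro h
    obtain ⟨i, hi⟩ := hUI 0 h 0 h
    simp at hi
  · -- one of `x`, `-x`
    have key : ∀ x ∈ Box m, (∃ i, 0 < x i) → x ∈ U ∨ -x ∈ U := by
      intro x hx ⟨i, hi⟩
      by_contra hcon
      rw [not_or] at hcon
      apply hcon.1
      apply hadd x hx ⟨i, by omega⟩
      intro z hz
      by_contra hz2
      push Not at hz2
      apply hcon.2
      apply hup z hz _ (neg_mem_Box hx)
      intro j
      have := hz2 j
      simp only [Pi.neg_apply]
      omega
    intro x hx hx0
    by_cases h : ∃ i, 0 < x i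
    · exact key x hx h
    · push Not at h
      obtain ⟨i, hi⟩ : ∃ i, x i ≠ 0 := by
        by_contra hall
        push Not at hall
        exact hx0 (funext hall)
      have := key (-x) (neg_mem_Box hx) ⟨i, by
        have := h i
        simp only [Pi.neg_apply]
        omega⟩
      rw [neg_neg] at this
      exact this.symm
  · intro x hx hx'
    obtain ⟨i, hi⟩ := hUI x hx _ hx'
    simp at hi

/-- an `I,U`-family in the box -/
def IUZ (m : Fin n → ℕ) (F : Finset (Fin n → ℤ)) : Prop :=
  F ⊆ Box m ∧ ∀ x ∈ F, ∀ y ∈ F, (∃ i, 0 < x i + y i) ∧ (∃ j, x j + y j < 0)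

open Classical in
/-- the upper bound, and the structure in the case of equality -/
theorem upper (m : Fin n → ℕ) (F : Finset (Fin n → ℤ)) (hF : IUZ m F) :
    ∃ U V, Good m U ∧ Good m V ∧ F ⊆ U \ V ∧ 4 * #F + 1 + 2 * ∑ i, m i ≤ #(Box m) ∧
      (4 * #F + 1 + 2 * ∑ i, m i = #(Box m) → Tight m U V ∧ F = U \ V) := by
  obtain ⟨hFB, hIU⟩ := hF
  obtain ⟨U, hU, hFU⟩ := exists_good m F hFB (fun x hx y hy => (hIU x hx y hy).1)
  obtain ⟨V, hV, hFV⟩ := exists_good m (F.image (fun x => -x)) (by
      intro x hx
      obtain ⟨y, hy, rfl⟩ := mem_image.1 hx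
      exact neg_mem_Box (hFB hy)) (by
      intro x hx y hy
      obtain ⟨a, ha, rfl⟩ := mem_image.1 hx
      obtain ⟨b, hb, rfl⟩ := mem_image.1 hy
      obtain ⟨j, hj⟩ := (hIU a ha b hb).2
      exact ⟨j, by simp only [Pi.neg_apply]; omega⟩)
  have h1 : F ⊆ U \ V := by
    intro x hx
    refine mem_sdiff.2 ⟨hFU hx, fun h => ?_⟩
    exact hV.excl x h (hFV (mem_image_of_mem _ hx))
  have h2 := card_le_card h1
  have h3 := card_sdiff_add_card_inter U V
  have h4 := correlation _ m U V rfl hU hV
  have h5 := hU.card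
  refine ⟨U, V, hU, hV, h1, by omega, fun heq => ⟨?_, ?_⟩⟩
  · unfold Tight
    omega
  · exact Finset.eq_of_subset_of_card_le h1 (by omega)

open Classical in
/-- the family of the order `σ` -/
noncomputable def FamZ (m : Fin n → ℕ) (σ : Equiv.Perm (Fin n)) : Finset (Fin n → ℤ) :=
  (Box m).filter (fun x => (∃ i, 0 < x i ∧ ∀ k, x k ≠ 0 → σ i ≤ σ k) ∧
    (∃ k, x k < 0 ∧ ∀ i, x i ≠ 0 → σ i ≤ σ k))

lemma lin_perm (m : Fin n → ℕ) (σ : Equiv.Perm (Fin n)) : IsLin m (fun i k => σ i < σ k) :=
  ⟨fun i k hik _ _ => lt_or_gt_of_ne (fun h => hik (σ.injective h)),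
    fun i k _ _ _ h1 h2 => absurd (lt_trans h1 h2) (lt_irrefl _),
    fun i j k _ _ _ _ _ _ h1 h2 => lt_trans h1 h2⟩

lemma lex_perm (σ : Equiv.Perm (Fin n)) (x : Fin n → ℤ) :
    Lex (fun i k => σ i < σ k) x ↔ ∃ i, 0 < x i ∧ ∀ k, x k ≠ 0 → σ i ≤ σ k := by
  constructor
  · rintro ⟨i, hi, h⟩
    refine ⟨i, hi, fun k hk => ?_⟩
    by_cases hki : k = i
    · rw [hki]
    · exact (h k hki hk).le
  · rintro ⟨i, hi, h⟩
    exact ⟨i, hi, fun k hki hk => lt_of_le_of_ne (h k hk) (fun e => hki (σ.injective e).symm)⟩

lemma lex_flip_perm (σ : Equiv.Perm (Fin n)) (x : Fin n → ℤ) :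
    Lex (flip (fun i k => σ i < σ k)) x ↔ ∃ k, 0 < x k ∧ ∀ i, x i ≠ 0 → σ i ≤ σ k := by
  constructor
  · rintro ⟨i, hi, h⟩
    refine ⟨i, hi, fun k hk => ?_⟩
    by_cases hki : k = i
    · rw [hki]
    · exact (h k hki hk).le
  · rintro ⟨i, hi, h⟩
    exact ⟨i, hi, fun k hki hk => lt_of_le_of_ne (h k hk) (fun e => hki (σ.injective e))⟩

open Classical in
lemma famZ_eq (m : Fin n → ℕ) (σ : Equiv.Perm (Fin n)) :
    FamZ m σ = (Box m).filter (Lex (fun i k => σ i < σ k)) \
      (Box m).filter (Lex (flip (fun i k => σ i < σ k))) := by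
  ext x
  unfold FamZ
  rw [mem_sdiff, mem_filter, mem_filter, mem_filter, not_and, lex_perm]
  have hneg : (∃ k, x k < 0 ∧ ∀ i, x i ≠ 0 → σ i ≤ σ k) ↔
      Lex (flip (fun i k => σ i < σ k)) (-x) := by
    rw [lex_flip_perm]
    simp only [Pi.neg_apply, neg_ne_zero, Left.neg_pos_iff]
  rw [hneg]
  constructor
  · rintro ⟨hx, h1, h2⟩
    exact ⟨⟨hx, h1⟩, fun _ h3 => lex_excl (lin_perm m σ).flip hx h3 h2⟩
  · rintro ⟨⟨hx, h1⟩, h2⟩
    refine ⟨hx, h1, ?_⟩
    have h0 : x ≠ 0 := by
      rintro rfl
      obtain ⟨i, hi, -⟩ := h1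
      simp at hi
    exact (lex_total (lin_perm m σ).flip hx h0).resolve_left (h2 hx)

lemma famZ_card (m : Fin n → ℕ) (σ : Equiv.Perm (Fin n)) :
    4 * #(FamZ m σ) + 1 + 2 * ∑ i, m i = #(Box m) := by
  classical
  rw [famZ_eq]
  have h1 := lex_tight _ m _ rfl (lin_perm m σ)
  have h2 := (good_lex (lin_perm m σ)).card
  have h3 := card_sdiff_add_card_inter ((Box m).filter (Lex (fun i k => σ i < σ k)))
    ((Box m).filter (Lex (flip (fun i k => σ i < σ k))))
  unfold Tight at h1
  omega

lemma good_add {m : Fin n → ℕ} {U : Finset (Fin n → ℤ)} (hU : Good m U) {x y : Fin n → ℤ}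
    (hx : x ∈ U) (hy : y ∈ U) : ∃ i, 0 < x i + y i := by
  by_contra hc
  push Not at hc
  apply hU.excl x hx
  refine hU.up y hy _ (neg_mem_Box (hU.sub hx)) (fun i => ?_)
  show y i ≤ -(x i)
  have := hc i
  omega

lemma famZ_iu (m : Fin n → ℕ) (σ : Equiv.Perm (Fin n)) : IUZ m (FamZ m σ) := by
  classical
  refine ⟨filter_subset _ _, fun x hx y hy => ?_⟩
  rw [famZ_eq, mem_sdiff] at hx hy
  have gU := good_lex (lin_perm m σ)
  have gV := good_lex (lin_perm m σ).flip
  refine ⟨good_add gU hx.1 hy.1, ?_⟩
  have key : ∀ x, x ∈ (Box m).filter (Lex (fun i k => σ i < σ k)) →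
      x ∉ (Box m).filter (Lex (flip (fun i k => σ i < σ k))) →
      -x ∈ (Box m).filter (Lex (flip (fun i k => σ i < σ k))) := by
    intro x h1 h2
    have h0 : x ≠ 0 := by
      rintro rfl
      exact gU.zero h1
    exact (gV.anti x (mem_filter.1 h1).1 h0).resolve_left h2
  obtain ⟨j, hj⟩ := good_add gV (key x hx.1 hx.2) (key y hy.1 hy.2)
  refine ⟨j, ?_⟩
  simp only [Pi.neg_apply] at hj
  omega

/-- a linear order of all coordinates comes from a permutation -/
lemma exists_perm {m : Fin n → ℕ} {r : Fin n → Fin n → Prop} (hm : ∀ i, m i ≠ 0)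
    (h : IsLin m r) : ∃ σ : Equiv.Perm (Fin n), ∀ i k, i ≠ k → (r i k ↔ σ i < σ k) := by
  classical
  let P : Fin n → Finset (Fin n) := fun i => univ.filter (fun k => k ≠ i ∧ r k i)
  have memP : ∀ i k, k ∈ P i ↔ k ≠ i ∧ r k i := fun i k => by
    change k ∈ univ.filter (fun k => k ≠ i ∧ r k i) ↔ _
    rw [mem_filter]
    simp
  have hlt : ∀ i, #(P i) < n := by
    intro i
    have h1 : P i ⊆ univ.erase i := by
      intro k hk
      exact mem_erase.2 ⟨((memP i k).1 hk).1, mem_univ _⟩
    have h2 := card_le_card h1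
    rw [card_erase_of_mem (mem_univ i), card_univ, Fintype.card_fin] at h2
    have h3 : 0 < n := i.pos
    omega
  have hmono : ∀ i k, i ≠ k → r i k → #(P i) < #(P k) := by
    intro i k hik hr
    apply card_lt_card
    rw [Finset.ssubset_iff_of_subset]
    · refine ⟨i, (memP k i).2 ⟨hik, hr⟩, fun hi => ?_⟩
      exact ((memP i i).1 hi).1 rfl
    · intro l hl
      rw [memP] at hl ⊢
      have hlk : l ≠ k := by
        rintro rfl
        exact h.asymm i l hik (hm i) (hm l) hr hl.2
      exact ⟨hlk, h.trans l i k hl.1 hik hlk (hm l) (hm i) (hm k) hl.2 hr⟩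
  let f : Fin n → Fin n := fun i => ⟨#(P i), hlt i⟩
  have hf : Function.Injective f := by
    intro i k hik
    by_contra hne
    have h1 : #(P i) = #(P k) := congrArg Fin.val hik
    rcases h.total i k hne (hm i) (hm k) with h2 | h2
    · have := hmono i k hne h2
      omega
    · have := hmono k i (Ne.symm hne) h2
      omega
  refine ⟨Equiv.ofBijective f (Finite.injective_iff_bijective.1 hf), fun i k hik => ?_⟩
  change r i k ↔ f i < f k
  constructor
  · intro hr
    exact hmono i k hik hr
  · intro hlt'
    rcases h.total i k hik (hm i) (hm k) with h2 | h2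
    · exact h2
    · have h3 : f k < f i := hmono k i hik.symm h2
      exact absurd (lt_trans hlt' h3) (lt_irrefl _)

lemma lex_congr {r r' : Fin n → Fin n → Prop} (h : ∀ i k, i ≠ k → (r i k ↔ r' i k))
    (x : Fin n → ℤ) : Lex r x ↔ Lex r' x := by
  constructor
  · rintro ⟨i, hi, h1⟩
    exact ⟨i, hi, fun k hk hxk => (h i k hk.symm).1 (h1 k hk hxk)⟩
  · rintro ⟨i, hi, h1⟩
    exact ⟨i, hi, fun k hk hxk => (h i k hk.symm).2 (h1 k hk hxk)⟩

/-- The largest `I,U`-families are the families of the orders of the coordinates. -/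
theorem extremal (m : Fin n → ℕ) (hm : ∀ i, m i ≠ 0) (F : Finset (Fin n → ℤ)) :
    (IUZ m F ∧ 4 * #F + 1 + 2 * ∑ i, m i = #(Box m)) ↔ ∃ σ, F = FamZ m σ := by
  classical
  constructor
  · rintro ⟨hF, heq⟩
    obtain ⟨U, V, hU, hV, -, -, h⟩ := upper m F hF
    obtain ⟨ht, hFe⟩ := h heq
    obtain ⟨hlin, hUl, hVl⟩ := unique_aux _ m U V (fun i k => pt m i k ∈ U) rfl hU hV ht
      (fun i k _ _ _ => Iff.rfl)
    have hU2 := lex_iff hlin hU hUl
    have hV2 := lex_iff hlin.flip hV hVl
    obtain ⟨σ, hσ⟩ := exists_perm hm hlin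
    refine ⟨σ, ?_⟩
    rw [famZ_eq, hFe]
    ext x
    rw [mem_sdiff, mem_sdiff, mem_filter, mem_filter]
    have e1 := lex_congr (r' := fun i k => σ i < σ k) hσ x
    have e2 := lex_congr (r := flip (fun i k => pt m i k ∈ U))
      (r' := flip (fun i k => σ i < σ k)) (fun i k hik => hσ k i hik.symm) x
    constructor
    · rintro ⟨h1, h2⟩
      have hxB := hU.sub h1
      refine ⟨⟨hxB, e1.1 ((hU2 x hxB).1 h1)⟩, fun h3 => h2 ?_⟩
      exact (hV2 x hxB).2 (e2.2 h3.2)
    · rintro ⟨⟨hxB, h1⟩, h2⟩
      refine ⟨(hU2 x hxB).2 (e1.2 h1), fun h3 => h2 ⟨hxB, ?_⟩⟩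
      exact e2.1 ((hV2 x hxB).1 h3)
  · rintro ⟨σ, rfl⟩
    exact ⟨famZ_iu m σ, famZ_card m σ⟩

/-- different orders give different families -/
theorem famZ_injective (m : Fin n → ℕ) (hm : ∀ i, m i ≠ 0) : Function.Injective (FamZ m) := by
  classical
  intro σ τ hst
  -- the point `u_i - u_k`
  have key : ∀ (ρ : Equiv.Perm (Fin n)) (i k : Fin n), i ≠ k →
      (Function.update (Function.update (0 : Fin n → ℤ) k (-1)) i 1 ∈ FamZ m ρ ↔ ρ i < ρ k) := by
    intro ρ i k hik
    set x := Function.update (Function.update (0 : Fin n → ℤ) k (-1)) i 1 with hx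
    have hxi : x i = 1 := by rw [hx, Function.update_self]
    have hxk : x k = -1 := by rw [hx, Function.update_of_ne hik.symm, Function.update_self]
    have hxo : ∀ l, l ≠ i → l ≠ k → x l = 0 := by
      intro l h1 h2
      rw [hx, Function.update_of_ne h1, Function.update_of_ne h2, Pi.zero_apply]
    have hxB : x ∈ Box m := by
      rw [mem_Box]
      intro l
      have hml := hm l
      by_cases h1 : l = i
      · rw [h1, hxi]
        rw [h1] at hml
        omega
      · by_cases h2 : l = k
        · rw [h2, hxk]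
          rw [h2] at hml
          omega
        · rw [hxo l h1 h2]
          omega
    unfold FamZ
    rw [mem_filter]
    constructor
    · rintro ⟨-, ⟨p, hp, hp'⟩, -⟩
      have hpi : p = i := by
        by_contra hne
        by_cases hpk : p = k
        · rw [hpk, hxk] at hp
          omega
        · rw [hxo p hne hpk] at hp
          omega
      rw [hpi] at hp'
      have := hp' k (by rw [hxk]; norm_num)
      exact lt_of_le_of_ne this (fun e => hik (ρ.injective e))
    · intro hlt
      refine ⟨hxB, ⟨i, by rw [hxi]; norm_num, fun l hl => ?_⟩,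
        ⟨k, by rw [hxk]; norm_num, fun l hl => ?_⟩⟩
      · by_cases h1 : l = i
        · rw [h1]
        · by_cases h2 : l = k
          · rw [h2]
            exact hlt.le
          · exact absurd (hxo l h1 h2) hl
      · by_cases h1 : l = i
        · rw [h1]
          exact hlt.le
        · by_cases h2 : l = k
          · rw [h2]
          · exact absurd (hxo l h1 h2) hl
  have hord : ∀ i k, σ i < σ k ↔ τ i < τ k := by
    intro i k
    by_cases hik : i = k
    · rw [hik]
      simp
    · rw [← key σ i k hik, ← key τ i k hik, hst]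
  let e : Fin n ≃o Fin n :=
    { toEquiv := σ.symm.trans τ
      map_rel_iff' := by
        intro a b
        simp only [Equiv.trans_apply]
        rw [← not_lt, ← not_lt, ← hord, Equiv.apply_symm_apply, Equiv.apply_symm_apply] }
  have he : e = OrderIso.refl _ := Subsingleton.elim _ _
  ext i
  have h1 : e (σ i) = σ i := by rw [he]; rfl
  have h2 : e (σ i) = τ i := by
    change τ (σ.symm (σ i)) = τ i
    rw [Equiv.symm_apply_apply]
  rw [← h1, h2]

end Pool.Agent.KS6_62.IU
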