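import Pool.Agent.KS6_62.IU.Core

set_option autoImplicit false
set_option linter.unusedSimpArgs false
set_option linter.unusedVariables false
set_option linter.style.longLine false

/-!
The equality case of the correlation inequality: two maximal `I`-families with the smallest possible
intersection are given by a linear order of the coordinates.
-/

open Finset

namespace Pool.Agent.KS6_62.IU

variable {n : ℕ}

/-- the first nonzero coordinate (for the order `r`) is positive -/
def Lex (r : Fin n → Fin n → Prop) (x : Fin n → ℤ) : Prop :=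
  ∃ i, 0 < x i ∧ ∀ k, k ≠ i → x k ≠ 0 → r i k

/-- `r` is a strict linear order on the support of `m` -/
structure IsLin (m : Fin n → ℕ) (r : Fin n → Fin n → Prop) : Prop where
  total : ∀ i k, i ≠ k → m i ≠ 0 → m k ≠ 0 → r i k ∨ r k i
  asymm : ∀ i k, i ≠ k → m i ≠ 0 → m k ≠ 0 → r i k → ¬ r k i
  trans : ∀ i j k, i ≠ j → j ≠ k → i ≠ k → m i ≠ 0 → m j ≠ 0 → m k ≠ 0 → r i j → r j k → r i k

lemma IsLin.flip {m : Fin n → ℕ} {r : Fin n → Fin n → Prop} (h : IsLin m r) :
    IsLin m (flip r) :=
  ⟨fun i k hik hi hk => (h.total i k hik hi hk).symm,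
    fun i k hik hi hk h1 h2 => h.asymm i k hik hi hk h2 h1,
    fun i j k hij hjk hik hi hj hk h1 h2 =>
      h.trans k j i hjk.symm hij.symm hik.symm hk hj hi h2 h1⟩

lemma exists_first {m : Fin n → ℕ} {r : Fin n → Fin n → Prop} (h : IsLin m r)
    (S : Finset (Fin n)) (hS : S.Nonempty) (hm : ∀ i ∈ S, m i ≠ 0) :
    ∃ a ∈ S, ∀ k ∈ S, k ≠ a → r a k := by
  classical
  induction S using Finset.induction_on with
  | empty => exact absurd hS (by simp)
  | @insert b S hb ih =>
    rcases S.eq_empty_or_nonempty with rfl | hne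
    · refine ⟨b, by simp, fun k hk hkb => ?_⟩
      simp only [mem_insert, notMem_empty, or_false] at hk
      exact absurd hk hkb
    · obtain ⟨a, haS, ha⟩ := ih hne (fun i hi => hm i (mem_insert_of_mem hi))
      have hab : a ≠ b := fun e => hb (e ▸ haS)
      rcases h.total a b hab (hm a (mem_insert_of_mem haS)) (hm b (mem_insert_self _ _)) with h1 | h1
      · refine ⟨a, mem_insert_of_mem haS, fun k hk hka => ?_⟩
        rcases mem_insert.1 hk with rfl | hk
        · exact h1
        · exact ha k hk hka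
      · refine ⟨b, mem_insert_self _ _, fun k hk hkb => ?_⟩
        rcases mem_insert.1 hk with rfl | hk
        · exact absurd rfl hkb
        · by_cases hka : k = a
          · rw [hka]
            exact h1
          · exact h.trans b a k hab.symm (Ne.symm hka) (Ne.symm hkb) (hm b (mem_insert_self _ _))
              (hm a (mem_insert_of_mem haS)) (hm k (mem_insert_of_mem hk)) h1 (ha k hk hka)

lemma supp_of_ne {m : Fin n → ℕ} {x : Fin n → ℤ} (hx : x ∈ Box m) {i : Fin n} (h : x i ≠ 0) :
    m i ≠ 0 := by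
  have := mem_Box.1 hx i
  omega

section lex

variable {m : Fin n → ℕ} {r : Fin n → Fin n → Prop}

lemma lex_total (h : IsLin m r) {x : Fin n → ℤ} (hx : x ∈ Box m) (h0 : x ≠ 0) :
    Lex r x ∨ Lex r (-x) := by
  classical
  obtain ⟨a, haS, ha⟩ := exists_first h (univ.filter (fun i => x i ≠ 0)) (by
      by_contra hc
      rw [not_nonempty_iff_eq_empty, filter_eq_empty_iff] at hc
      apply h0
      funext i
      have := hc (mem_univ i)
      simpa using this) (fun i hi => supp_of_ne hx (mem_filter.1 hi).2)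
  have hxa := (mem_filter.1 haS).2
  rcases lt_or_gt_of_ne hxa with h1 | h1
  · right
    refine ⟨a, ?_, fun k hk hxk => ha k (mem_filter.2 ⟨mem_univ _, ?_⟩) hk⟩
    · rw [Pi.neg_apply]; omega
    · rw [Pi.neg_apply] at hxk; omega
  · left
    exact ⟨a, h1, fun k hk hxk => ha k (mem_filter.2 ⟨mem_univ _, hxk⟩) hk⟩

lemma lex_excl (h : IsLin m r) {x : Fin n → ℤ} (hx : x ∈ Box m) (h1 : Lex r x) : ¬ Lex r (-x) := by
  rintro ⟨k, hk, hk'⟩
  obtain ⟨i, hi, hi'⟩ := h1
  rw [Pi.neg_apply] at hk
  have hik : i ≠ k := by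
    rintro rfl
    omega
  exact h.asymm i k hik (supp_of_ne hx (by omega)) (supp_of_ne hx (by omega))
    (hi' k hik.symm (by omega)) (hk' i hik (by rw [Pi.neg_apply]; omega))

lemma lex_up (h : IsLin m r) {x y : Fin n → ℤ} (hx : x ∈ Box m) (hy : y ∈ Box m) (hxy : x ≤ y)
    (h1 : Lex r x) : Lex r y := by
  obtain ⟨i, hi, hi'⟩ := h1
  have hyi : x i ≤ y i := hxy i
  have hy0 : y ≠ 0 := fun h0 => by
    have := congrFun h0 i
    rw [Pi.zero_apply] at this
    omega
  rcases lex_total h hy hy0 with h2 | ⟨k, hk, hk'⟩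
  · exact h2
  · exfalso
    rw [Pi.neg_apply] at hk
    have hik : i ≠ k := by
      rintro rfl
      omega
    have hxk : x k ≤ y k := hxy k
    exact h.asymm i k hik (supp_of_ne hx (by omega)) (supp_of_ne hx (by omega))
      (hi' k hik.symm (by omega)) (hk' i hik (by rw [Pi.neg_apply]; omega))

open Classical in
lemma good_lex (h : IsLin m r) : Good m ((Box m).filter (Lex r)) := by
  refine ⟨filter_subset _ _, ?_, ?_, ?_, ?_⟩
  · intro x hx y hy hxy
    rw [mem_filter] at hx ⊢
    exact ⟨hy, lex_up h hx.1 hy hxy hx.2⟩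
  · intro h0
    obtain ⟨i, hi, -⟩ := (mem_filter.1 h0).2
    simp at hi
  · intro x hx h0
    rcases lex_total h hx h0 with h1 | h1
    · exact Or.inl (mem_filter.2 ⟨hx, h1⟩)
    · exact Or.inr (mem_filter.2 ⟨neg_mem_Box hx, h1⟩)
  · intro x hx hx'
    exact lex_excl h (mem_filter.1 hx).1 (mem_filter.1 hx).2 (mem_filter.1 hx').2

lemma lex_iff (h : IsLin m r) {U : Finset (Fin n → ℤ)} (hU : Good m U)
    (hs : ∀ x ∈ Box m, Lex r x → x ∈ U) : ∀ x ∈ Box m, (x ∈ U ↔ Lex r x) := by
  intro x hx
  refine ⟨fun hxU => ?_, hs x hx⟩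
  have h0 : x ≠ 0 := by
    rintro rfl
    exact hU.zero hxU
  rcases lex_total h hx h0 with h1 | h1
  · exact h1
  · exact absurd (hs _ (neg_mem_Box hx) h1) (hU.excl x hxU)

end lex

/-- the vector with `1` at `i` and `-m k` at `k` -/
def pt (m : Fin n → ℕ) (i k : Fin n) : Fin n → ℤ :=
  Function.update (Function.update 0 k (-(m k : ℤ))) i 1

lemma pt_self (m : Fin n → ℕ) (i k : Fin n) : pt m i k i = 1 := Function.update_self _ _ _

lemma pt_snd (m : Fin n → ℕ) {i k : Fin n} (h : i ≠ k) : pt m i k k = -(m k : ℤ) := by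
  unfold pt
  rw [Function.update_of_ne h.symm, Function.update_self]

lemma pt_other (m : Fin n → ℕ) {i k l : Fin n} (h : l ≠ i) (h' : l ≠ k) : pt m i k l = 0 := by
  unfold pt
  rw [Function.update_of_ne h, Function.update_of_ne h', Pi.zero_apply]

lemma pt_mem {m : Fin n → ℕ} {i k : Fin n} (h : i ≠ k) (hi : m i ≠ 0) : pt m i k ∈ Box m := by
  rw [mem_Box]
  intro l
  by_cases h1 : l = i
  · subst h1
    rw [pt_self]
    omega
  · by_cases h2 : l = k
    · subst h2
      rw [pt_snd m h]
      omega
    · rw [pt_other m h1 h2]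
      omega

lemma pt_le {m : Fin n → ℕ} {i k : Fin n} (h : i ≠ k) (hm : ∀ l, l ≠ i → l ≠ k → m l = 0)
    {x : Fin n → ℤ} (hx : x ∈ Box m) (hxi : 0 < x i) : pt m i k ≤ x := by
  intro l
  show (pt m i k l : ℤ) ≤ x l
  have := mem_Box.1 hx l
  by_cases h1 : l = i
  · subst h1
    rw [pt_self]
    omega
  · by_cases h2 : l = k
    · subst h2
      rw [pt_snd m h]
      omega
    · rw [pt_other m h1 h2]
      have := hm l h1 h2
      omega

/-- for two coordinates: the dichotomy -/
lemma pair_dich {m : Fin n → ℕ} {U V : Finset (Fin n → ℤ)} {i k : Fin n} (hik : i ≠ k)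
    (hi : m i ≠ 0) (hk : m k ≠ 0) (hm : ∀ l, l ≠ i → l ≠ k → m l = 0) (hU : Good m U)
    (hV : Good m V) (ht : Tight m U V) :
    (pt m i k ∈ U ∨ pt m i k ∈ V) ∧ ¬ (pt m i k ∈ U ∧ pt m i k ∈ V) := by
  classical
  have hj : (1 : ℤ) ∈ Icc (1 : ℤ) (m i) := mem_Icc.2 (by omega)
  have heq := (tight_slice i hU hV ht).2 1 hj
  set B := Box (Function.update m i 0) with hB
  have hmk : Function.update m i 0 k = m k := Function.update_of_ne hik.symm _ _
  -- the vector with `m k` at `k`
  set x0 : Fin n → ℤ := Function.update 0 k (m k : ℤ) with hx0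
  have hx0B : x0 ∈ B := by
    rw [hB, mem_Box]
    intro l
    by_cases hl : l = k
    · subst hl
      rw [hx0, Function.update_self, hmk]
      omega
    · rw [hx0, Function.update_of_ne hl, Pi.zero_apply]
      omega
  have hBm : ∀ x ∈ B, ∀ l, l ≠ k → x l = 0 := by
    intro x hx l hl
    rw [hB, mem_Box_update] at hx
    by_cases hli : l = i
    · rw [hli]
      exact hx.2
    · have h1 := mem_Box.1 hx.1 l
      have h2 := hm l hli hl
      omega
  constructor
  · by_contra hc
    rw [not_or] at hc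
    have hpt := pt_mem (m := m) hik hi
    have hpt0 : pt m i k ≠ 0 := fun h0 => by
      have := congrFun h0 i
      rw [pt_self, Pi.zero_apply] at this
      omega
    have hnU : -pt m i k ∈ U := by
      rcases hU.anti _ hpt hpt0 with h | h
      · exact absurd h hc.1
      · exact h
    have hnV : -pt m i k ∈ V := by
      rcases hV.anti _ hpt hpt0 with h | h
      · exact absurd h hc.2
      · exact h
    have hneg : Function.update x0 i (-1) = -pt m i k := by
      unfold pt
      rw [neg_update, neg_update, neg_neg, neg_zero]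
    have hA2 : 0 < #(Sl m i U (-1) ∩ Sl m i V (-1)) := by
      apply card_pos.2
      refine ⟨x0, mem_inter.2 ⟨mem_Sl.2 ⟨hx0B, ?_⟩, mem_Sl.2 ⟨hx0B, ?_⟩⟩⟩
      · rw [hneg]; exact hnU
      · rw [hneg]; exact hnV
    -- the nonnegative half
    set T := B.filter (fun x => 0 ≤ x) with hT
    have hTA : T ⊆ Sl m i U 1 ∩ Sl m i V 1 := by
      intro x hx
      rw [hT, mem_filter] at hx
      have hbox : Function.update x i 1 ∈ Box m :=
        update_mem_Box (mem_Box_update.1 hx.1).1 i (mem_Icc.2 (by omega))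
      have h0 : (0 : Fin n → ℤ) ≤ Function.update x i 1 := by
        intro l
        by_cases hl : l = i
        · subst hl
          rw [Function.update_self]
          simp
        · rw [Function.update_of_ne hl]
          exact hx.2 l
      have hne : Function.update x i 1 ≠ 0 := fun h0 => by
        have := congrFun h0 i
        rw [Function.update_self, Pi.zero_apply] at this
        omega
      exact mem_inter.2 ⟨mem_Sl.2 ⟨hx.1, hU.nonneg hbox h0 hne⟩,
        mem_Sl.2 ⟨hx.1, hV.nonneg hbox h0 hne⟩⟩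
    have hcov : B ⊆ T ∪ T.image (fun x => -x) := by
      intro x hx
      have h1 := hBm x hx
      rcases le_total 0 (x k) with h2 | h2
      · apply mem_union_left
        rw [hT, mem_filter]
        refine ⟨hx, fun l => ?_⟩
        by_cases hl : l = k
        · rw [hl]
          exact h2
        · rw [h1 l hl]
          simp
      · apply mem_union_right
        rw [mem_image]
        refine ⟨-x, ?_, neg_neg x⟩
        rw [hT, mem_filter]
        refine ⟨neg_mem_Box hx, fun l => ?_⟩
        show (0 : ℤ) ≤ -(x l)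
        by_cases hl : l = k
        · rw [hl]
          omega
        · rw [h1 l hl]
          simp
    have h0T : (0 : Fin n → ℤ) ∈ T := mem_filter.2 ⟨zero_mem_Box _, le_rfl⟩
    have h2 : 0 < #(T ∩ T.image (fun x => -x)) :=
      card_pos.2 ⟨0, mem_inter.2 ⟨h0T, mem_image.2 ⟨0, h0T, neg_zero⟩⟩⟩
    have h3 := card_union_add_card_inter T (T.image (fun x => -x))
    rw [card_image_of_injective _ neg_injective] at h3
    have h4 := card_le_card hcov
    have h5 := card_le_card hTA
    omega
  · rintro ⟨hUp, hVp⟩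
    have hA1 : B ⊆ Sl m i U 1 ∩ Sl m i V 1 := by
      intro x hx
      have hbox : Function.update x i 1 ∈ Box m :=
        update_mem_Box (mem_Box_update.1 hx).1 i (mem_Icc.2 (by omega))
      have hle : pt m i k ≤ Function.update x i 1 :=
        pt_le hik hm hbox (by rw [Function.update_self]; norm_num)
      exact mem_inter.2 ⟨mem_Sl.2 ⟨hx, hU.up _ hUp _ hbox hle⟩,
        mem_Sl.2 ⟨hx, hV.up _ hVp _ hbox hle⟩⟩
    have h1 := card_le_card hA1
    have h2 : 1 < #B := by
      rw [one_lt_card]
      refine ⟨0, zero_mem_Box _, x0, hx0B, fun h0 => ?_⟩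
      have := congrFun h0 k
      rw [hx0, Function.update_self, Pi.zero_apply] at this
      omega
    omega

lemma not_both {m : Fin n → ℕ} {W : Finset (Fin n → ℤ)} {i k : Fin n} (hik : i ≠ k)
    (hi : m i ≠ 0) (hk : m k ≠ 0) (hW : Good m W) : ¬ (pt m i k ∈ W ∧ pt m k i ∈ W) := by
  rintro ⟨h1, h2⟩
  apply hW.excl _ h2
  refine hW.up _ h1 _ (neg_mem_Box (pt_mem hik.symm hk)) ?_
  intro l
  show (pt m i k l : ℤ) ≤ -(pt m k i l)
  by_cases h3 : l = i
  · subst h3
    rw [pt_self, pt_snd m hik.symm]
    omega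
  · by_cases h4 : l = k
    · subst h4
      rw [pt_self, pt_snd m hik]
      omega
    · rw [pt_other m h3 h4, pt_other m h4 h3]
      simp

end Pool.Agent.KS6_62.IU
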