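import Pool.Agent.KS6_62.IU.Lex

set_option autoImplicit false
set_option linter.unusedSimpArgs false
set_option linter.unusedVariables false
set_option linter.style.longLine false

/-!
Tight pairs of maximal `I`-families come from a linear order of the coordinates.
-/

open Finset

namespace Pool.Agent.KS6_62.IU

variable {n : ℕ}

lemma update_zero_le {x : Fin n → ℤ} {h : Fin n} (hx : 0 ≤ x h) : Function.update x h 0 ≤ x := by
  intro l
  show Function.update x h 0 l ≤ x l
  by_cases hl : l = h
  · subst hl
    rw [Function.update_self]
    exact hx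
  · rw [Function.update_of_ne hl]

lemma update_zero_mem {m : Fin n → ℕ} {x : Fin n → ℤ} (hx : x ∈ Box m) (h : Fin n) :
    Function.update x h 0 ∈ Box m :=
  update_mem_Box hx h (mem_Icc.2 (by omega))

/-- the data produced by the induction hypothesis -/
structure Low (m : Fin n → ℕ) (U V : Finset (Fin n → ℤ)) (r : Fin n → Fin n → Prop) : Prop where
  u : ∀ h, m h ≠ 0 → ∀ x ∈ Box m, x h = 0 → Lex r x → x ∈ U
  v : ∀ h, m h ≠ 0 → ∀ x ∈ Box m, x h = 0 → Lex (flip r) x → x ∈ V

lemma Low.swap {m : Fin n → ℕ} {U V : Finset (Fin n → ℤ)} {r : Fin n → Fin n → Prop}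
    (h : Low m U V r) : Low m V U (flip r) := ⟨h.v, h.u⟩

lemma tight_card {m : Fin n → ℕ} {U V U' V' : Finset (Fin n → ℤ)} (ht : Tight m U V)
    (hU : Good m U') (hV : Good m V') : #(U ∩ V) ≤ #(U' ∩ V') := by
  have h1 := correlation _ m U' V' rfl hU hV
  unfold Tight at ht
  omega

open Classical in
/-- there is no cyclic tight pair for three coordinates -/
lemma no_cycle {m : Fin n → ℕ} {U V : Finset (Fin n → ℤ)} {r : Fin n → Fin n → Prop}
    (hU : Good m U) (hV : Good m V) (ht : Tight m U V) (hlow : Low m U V r) {i j k : Fin n}
    (hij : i ≠ j) (hjk : j ≠ k) (hik : i ≠ k) (hi : m i ≠ 0) (hj : m j ≠ 0) (hk : m k ≠ 0)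
    (hm : ∀ l, l ≠ i → l ≠ j → l ≠ k → m l = 0) (h1 : r i j) (h2 : r j k) (h3 : r k i) : False := by
  let r' : Fin n → Fin n → Prop := fun x y => (x = i ∧ y = j) ∨ (x = j ∧ y = k) ∨ (x = i ∧ y = k)
  have hcase : ∀ l, m l ≠ 0 → l = i ∨ l = j ∨ l = k := by
    intro l hl
    by_contra hc
    push Not at hc
    exact hl (hm l hc.1 hc.2.1 hc.2.2)
  have hlin : IsLin m r' := by
    refine ⟨?_, ?_, ?_⟩
    · intro a b hab ha hb
      rcases hcase a ha with rfl | rfl | rfl <;> rcases hcase b hb with rfl | rfl | rfl <;>
        simp_all [r']
    · intro a b hab ha hb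
      rcases hcase a ha with rfl | rfl | rfl <;> rcases hcase b hb with rfl | rfl | rfl <;>
        simp_all [r'] <;> tauto
    · intro a b c hab hbc hac ha hb hc
      rcases hcase a ha with rfl | rfl | rfl <;> rcases hcase b hb with rfl | rfl | rfl <;>
        rcases hcase c hc with rfl | rfl | rfl <;> simp_all [r'] <;> tauto
  have hrj : ∀ b, r' i b → b = j ∨ b = k := by
    rintro b (h | h | h)
    · exact Or.inl h.2
    · exact absurd h.1 hij
    · exact Or.inr h.2
  set U' := (Box m).filter (Lex r') with hU'
  set V' := (Box m).filter (Lex (flip r')) with hV'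
  have hc := tight_card ht (good_lex hlin) (good_lex hlin.flip)
  rw [← hU', ← hV'] at hc
  have hsub : U' ∩ V' ⊆ U ∩ V := by
    intro x hx
    rw [mem_inter, hU', hV', mem_filter, mem_filter] at hx
    obtain ⟨⟨hxB, p, hp, hp'⟩, -, q, hq, hq'⟩ := hx
    have hpS := hcase p (supp_of_ne hxB (by omega))
    have hqS := hcase q (supp_of_ne hxB (by omega))
    have hxi : 0 ≤ x i := by
      by_contra hneg
      push Not at hneg
      have hpi : i ≠ p := by
        rintro rfl
        omega
      rcases hp' i hpi (by omega) with h | h | h
      · exact hij h.2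
      · exact hik h.2
      · exact hik h.2
    have hxk : 0 ≤ x k := by
      by_contra hneg
      push Not at hneg
      have hqk : k ≠ q := by
        rintro rfl
        omega
      rcases hq' k hqk (by omega) with h | h | h
      · exact hik h.1.symm
      · exact hjk h.1.symm
      · exact hik h.1.symm
    by_cases hxj : 0 ≤ x j
    · have hnn : 0 ≤ x := by
        intro l
        show (0 : ℤ) ≤ x l
        by_cases hl : m l = 0
        · have := mem_Box.1 hxB l
          omega
        · rcases hcase l hl with rfl | rfl | rfl
          · exact hxi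
          · exact hxj
          · exact hxk
      have hne : x ≠ 0 := fun h0 => by
        rw [h0] at hp
        simp at hp
      exact mem_inter.2 ⟨hU.nonneg hxB hnn hne, hV.nonneg hxB hnn hne⟩
    · push Not at hxj
      have hpi : p = i := by
        have hpj : j ≠ p := by
          rintro rfl
          omega
        rcases hp' j hpj (by omega) with h | h | h
        · exact h.1
        · exact absurd h.2 hjk
        · exact absurd h.2 hjk
      have hqk : q = k := by
        have hqj : j ≠ q := by
          rintro rfl
          omega
        rcases hq' j hqj (by omega) with h | h | h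
        · exact absurd h.1.symm hij
        · exact h.2
        · exact absurd h.1.symm hij
      subst hpi
      subst hqk
      rw [mem_inter]
      constructor
      · refine hU.up _ (hlow.u q hk (Function.update x q 0) (update_zero_mem hxB q)
          (Function.update_self _ _ _) ⟨p, ?_, ?_⟩) x hxB (update_zero_le hxk)
        · rw [Function.update_of_ne hik]
          exact hp
        · intro l hl hxl
          by_cases hlq : l = q
          · subst hlq
            rw [Function.update_self] at hxl
            exact absurd rfl hxl
          · rw [Function.update_of_ne hlq] at hxl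
            rcases hcase l (supp_of_ne hxB hxl) with rfl | rfl | rfl
            · exact absurd rfl hl
            · exact h1
            · exact absurd rfl hlq
      · refine hV.up _ (hlow.v p hi (Function.update x p 0) (update_zero_mem hxB p)
          (Function.update_self _ _ _) ⟨q, ?_, ?_⟩) x hxB (update_zero_le hxi)
        · rw [Function.update_of_ne hik.symm]
          exact hq
        · intro l hl hxl
          by_cases hlq : l = p
          · subst hlq
            rw [Function.update_self] at hxl
            exact absurd rfl hxl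
          · rw [Function.update_of_ne hlq] at hxl
            rcases hcase l (supp_of_ne hxB hxl) with rfl | rfl | rfl
            · exact absurd rfl hlq
            · exact h2
            · exact absurd rfl hl
  -- a point of `U ∩ V` outside `U' ∩ V'`
  set y : Fin n → ℤ := Function.update (Function.update (Function.update 0 i (-1)) j 1) k 1 with hy
  have hyi : y i = -1 := by
    rw [hy, Function.update_of_ne hik, Function.update_of_ne hij, Function.update_self]
  have hyj : y j = 1 := by
    rw [hy, Function.update_of_ne hjk, Function.update_self]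
  have hyk : y k = 1 := by
    rw [hy, Function.update_self]
  have hyo : ∀ l, l ≠ i → l ≠ j → l ≠ k → y l = 0 := by
    intro l h1 h2 h3
    rw [hy, Function.update_of_ne h3, Function.update_of_ne h2, Function.update_of_ne h1,
      Pi.zero_apply]
  have hyB : y ∈ Box m := by
    rw [mem_Box]
    intro l
    by_cases e1 : l = i
    · subst e1
      rw [hyi]
      omega
    · by_cases e2 : l = j
      · subst e2
        rw [hyj]
        omega
      · by_cases e3 : l = k
        · subst e3
          rw [hyk]
          omega
        · rw [hyo l e1 e2 e3]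
          omega
  have hyU : y ∈ U := by
    refine hU.up _ (hlow.u j hj (Function.update y j 0) (update_zero_mem hyB j)
      (Function.update_self _ _ _) ⟨k, ?_, ?_⟩) y hyB (update_zero_le (by rw [hyj]; norm_num))
    · rw [Function.update_of_ne hjk.symm, hyk]
      norm_num
    · intro l hl hyl
      by_cases e2 : l = j
      · subst e2
        rw [Function.update_self] at hyl
        exact absurd rfl hyl
      · rw [Function.update_of_ne e2] at hyl
        by_cases e1 : l = i
        · rw [e1]
          exact h3
        · exact absurd (hyo l e1 e2 hl) hyl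
  have hyV : y ∈ V := by
    refine hV.up _ (hlow.v k hk (Function.update y k 0) (update_zero_mem hyB k)
      (Function.update_self _ _ _) ⟨j, ?_, ?_⟩) y hyB (update_zero_le (by rw [hyk]; norm_num))
    · rw [Function.update_of_ne hjk, hyj]
      norm_num
    · intro l hl hyl
      by_cases e2 : l = k
      · subst e2
        rw [Function.update_self] at hyl
        exact absurd rfl hyl
      · rw [Function.update_of_ne e2] at hyl
        by_cases e1 : l = i
        · rw [e1]
          exact h1
        · exact absurd (hyo l e1 hl e2) hyl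
  have hyn : y ∉ U' ∩ V' := by
    intro hmem
    rw [mem_inter, hU', mem_filter] at hmem
    obtain ⟨⟨-, p, hp, hp'⟩, -⟩ := hmem
    have hpi : i ≠ p := by
      rintro rfl
      rw [hyi] at hp
      omega
    rcases hp' i hpi (by rw [hyi]; norm_num) with h | h | h
    · exact hij h.2
    · exact hik h.2
    · exact hik h.2
  have hlt : #(U' ∩ V') < #(U ∩ V) :=
    card_lt_card (Finset.ssubset_iff_subset_ne.2 ⟨hsub, fun e => hyn (e ▸ mem_inter.2 ⟨hyU, hyV⟩)⟩)
  omega

open Classical in
/-- the inductive step for at least three coordinates -/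
lemma step {m : Fin n → ℕ} {U V : Finset (Fin n → ℤ)} {r : Fin n → Fin n → Prop}
    (hU : Good m U) (hV : Good m V) (ht : Tight m U V) (hlow : Low m U V r) (hlin : IsLin m r)
    (hcard : 3 ≤ #(univ.filter (fun i => m i ≠ 0))) :
    ∀ x ∈ Box m, Lex r x → x ∈ U := by
  set S := univ.filter (fun i => m i ≠ 0) with hS
  have memS : ∀ i, i ∈ S ↔ m i ≠ 0 := fun i => by rw [hS, mem_filter]; simp
  have hne : S.Nonempty := card_pos.1 (by omega)
  obtain ⟨a, haS, ha⟩ := exists_first hlin S hne (fun i hi => (memS i).1 hi)
  obtain ⟨z, hzS, hz⟩ := exists_first hlin.flip S hne (fun i hi => (memS i).1 hi)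
  have haz : a ≠ z := by
    rintro rfl
    obtain ⟨b, hb, hba⟩ := Finset.exists_mem_ne (by omega : 1 < #S) a
    exact hlin.asymm a b hba.symm ((memS a).1 haS) ((memS b).1 hb) (ha b hb hba) (hz b hb hba)
  -- the comparison pair
  set U' := (Box m).filter (Lex r) with hU'
  set V' := (Box m).filter (Lex (flip r)) with hV'
  have hc := tight_card ht (good_lex hlin) (good_lex hlin.flip)
  rw [← hU', ← hV'] at hc
  have hfirst : ∀ x ∈ Box m, Lex r x → x a ≠ 0 → 0 < x a := by
    rintro x hxB ⟨p, hp, hp'⟩ hxa
    by_cases hpa : a = p
    · rw [hpa]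
      exact hp
    · exfalso
      have hpm := supp_of_ne hxB (show x p ≠ 0 by omega)
      exact hlin.asymm a p hpa ((memS a).1 haS) hpm (ha p ((memS p).2 hpm) (Ne.symm hpa))
        (hp' a hpa hxa)
  have hlast : ∀ x ∈ Box m, Lex (flip r) x → x z ≠ 0 → 0 < x z := by
    rintro x hxB ⟨p, hp, hp'⟩ hxz
    by_cases hpz : z = p
    · rw [hpz]
      exact hp
    · exfalso
      have hpm := supp_of_ne hxB (show x p ≠ 0 by omega)
      exact hlin.asymm z p hpz ((memS z).1 hzS) hpm (hp' z hpz hxz)
        (hz p ((memS p).2 hpm) (Ne.symm hpz))
  have lexa : ∀ x ∈ Box m, 0 < x a → Lex r x := fun x hxB hxa =>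
    ⟨a, hxa, fun l hl hxl => ha l ((memS l).2 (supp_of_ne hxB hxl)) hl⟩
  have lexz : ∀ x ∈ Box m, 0 < x z → Lex (flip r) x := fun x hxB hxz =>
    ⟨z, hxz, fun l hl hxl => hz l ((memS l).2 (supp_of_ne hxB hxl)) hl⟩
  have hsub : U' ∩ V' ⊆ U ∩ V := by
    intro x hx
    rw [mem_inter, hU', hV', mem_filter, mem_filter] at hx
    obtain ⟨⟨hxB, hx1⟩, -, hx2⟩ := hx
    by_cases hex : ∃ h, m h ≠ 0 ∧ x h = 0
    · obtain ⟨h, hmh, hxh⟩ := hex
      exact mem_inter.2 ⟨hlow.u h hmh x hxB hxh hx1, hlow.v h hmh x hxB hxh hx2⟩
    · push Not at hex
      have hxa := hfirst x hxB hx1 (hex a ((memS a).1 haS))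
      have hxz := hlast x hxB hx2 (hex z ((memS z).1 hzS))
      rw [mem_inter]
      constructor
      · refine hU.up _ (hlow.u z ((memS z).1 hzS) (Function.update x z 0) (update_zero_mem hxB z)
          (Function.update_self _ _ _) (lexa _ (update_zero_mem hxB z) ?_)) x hxB
          (update_zero_le hxz.le)
        rw [Function.update_of_ne haz]
        exact hxa
      · refine hV.up _ (hlow.v a ((memS a).1 haS) (Function.update x a 0) (update_zero_mem hxB a)
          (Function.update_self _ _ _) (lexz _ (update_zero_mem hxB a) ?_)) x hxB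
          (update_zero_le hxa.le)
        rw [Function.update_of_ne haz.symm]
        exact hxz
  have heq : U' ∩ V' = U ∩ V := Finset.eq_of_subset_of_card_le hsub hc
  intro x hxB hx1
  by_cases hex : ∃ h, m h ≠ 0 ∧ x h = 0
  · obtain ⟨h, hmh, hxh⟩ := hex
    exact hlow.u h hmh x hxB hxh hx1
  · push Not at hex
    have hxa := hfirst x hxB hx1 (hex a ((memS a).1 haS))
    by_cases hpos : ∃ k, k ≠ a ∧ 0 < x k
    · obtain ⟨k, hka, hxk⟩ := hpos
      refine hU.up _ (hlow.u k (supp_of_ne hxB (by omega)) (Function.update x k 0)
        (update_zero_mem hxB k) (Function.update_self _ _ _)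
        (lexa _ (update_zero_mem hxB k) ?_)) x hxB (update_zero_le hxk.le)
      rw [Function.update_of_ne hka.symm]
      exact hxa
    · push Not at hpos
      by_contra hxU
      have hx0 : x ≠ 0 := fun h0 => by
        rw [h0] at hxa
        simp at hxa
      have hnU : -x ∈ U := by
        rcases hU.anti x hxB hx0 with h | h
        · exact absurd h hxU
        · exact h
      have hnB := neg_mem_Box hxB
      have hxz : x z < 0 := by
        have := hpos z haz.symm
        have := hex z ((memS z).1 hzS)
        omega
      -- a third coordinate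
      obtain ⟨h, hhS, hhn⟩ : ∃ h ∈ S, h ∉ ({a, z} : Finset (Fin n)) :=
        Finset.exists_mem_notMem_of_card_lt_card
          (lt_of_le_of_lt (Finset.card_le_two) (by omega))
      rw [mem_insert, mem_singleton, not_or] at hhn
      have hxh : x h ≤ 0 := hpos h hhn.1
      have hnV : -x ∈ V := by
        refine hV.up _ (hlow.v h ((memS h).1 hhS) (Function.update (-x) h 0)
          (update_zero_mem hnB h) (Function.update_self _ _ _)
          (lexz _ (update_zero_mem hnB h) ?_)) (-x) hnB (update_zero_le ?_)
        · rw [Function.update_of_ne (Ne.symm hhn.2), Pi.neg_apply]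
          omega
        · rw [Pi.neg_apply]
          omega
      have hmem : -x ∈ U' ∩ V' := by
        rw [heq]
        exact mem_inter.2 ⟨hnU, hnV⟩
      have h5 : Lex r (-x) := by
        rw [mem_inter, hU', mem_filter] at hmem
        exact hmem.1.2
      exact lex_excl hlin hxB hx1 h5

/-- A tight pair is given by the relation `r`. -/
theorem unique_aux (s : ℕ) : ∀ (m : Fin n → ℕ) (U V : Finset (Fin n → ℤ))
    (r : Fin n → Fin n → Prop), #(univ.filter (fun i => m i ≠ 0)) = s → Good m U → Good m V →
    Tight m U V →
    (∀ i k, i ≠ k → m i ≠ 0 → m k ≠ 0 → (r i k ↔ pt m i k ∈ U)) →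
    IsLin m r ∧ (∀ x ∈ Box m, Lex r x → x ∈ U) ∧ (∀ x ∈ Box m, Lex (flip r) x → x ∈ V) := by
  classical
  induction s with
  | zero =>
    intro m U V r hs hU hV ht hr
    have hm : ∀ i, m i = 0 := by
      intro i
      by_contra hi
      have := Finset.card_eq_zero.1 hs
      have h2 : i ∈ univ.filter (fun i => m i ≠ 0) := mem_filter.2 ⟨mem_univ i, hi⟩
      rw [this] at h2
      exact absurd h2 (notMem_empty _)
    refine ⟨⟨fun i k _ hi => absurd (hm i) hi, fun i k _ hi => absurd (hm i) hi,
      fun i j k _ _ _ hi => absurd (hm i) hi⟩, ?_, ?_⟩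
    · rintro x hx ⟨i, hi, -⟩
      exact absurd (hm i) (supp_of_ne hx (by omega))
    · rintro x hx ⟨i, hi, -⟩
      exact absurd (hm i) (supp_of_ne hx (by omega))
  | succ s ih =>
    intro m U V r hs hU hV ht hr
    set S := univ.filter (fun i => m i ≠ 0) with hS
    have memS : ∀ i, i ∈ S ↔ m i ≠ 0 := fun i => by rw [hS, mem_filter]; simp
    -- the induction hypothesis for the slices
    have IH : ∀ h, m h ≠ 0 → IsLin (Function.update m h 0) r ∧
        (∀ x ∈ Box m, x h = 0 → Lex r x → x ∈ U) ∧
        (∀ x ∈ Box m, x h = 0 → Lex (flip r) x → x ∈ V) := by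
      intro h hh
      have hs' : #(univ.filter (fun i => Function.update m h 0 i ≠ 0)) = s := by
        have : univ.filter (fun i => Function.update m h 0 i ≠ 0) = S.erase h := by
          ext i
          rw [mem_filter, mem_erase, memS]
          by_cases hi : i = h
          · subst hi
            simp
          · rw [Function.update_of_ne hi]
            simp [hi]
        rw [this, card_erase_of_mem ((memS h).2 hh), hs]
        rfl
      have hr' : ∀ i k, i ≠ k → Function.update m h 0 i ≠ 0 → Function.update m h 0 k ≠ 0 →
          (r i k ↔ pt (Function.update m h 0) i k ∈ U.filter (fun x => x h = 0)) := by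
        intro i k hik hi hk
        have hih : i ≠ h := by
          rintro rfl
          rw [Function.update_self] at hi
          exact hi rfl
        have hkh : k ≠ h := by
          rintro rfl
          rw [Function.update_self] at hk
          exact hk rfl
        rw [Function.update_of_ne hih] at hi
        rw [Function.update_of_ne hkh] at hk
        have e1 : pt (Function.update m h 0) i k = pt m i k := by
          unfold pt
          rw [Function.update_of_ne hkh]
        rw [e1, mem_filter, hr i k hik hi hk]
        exact ⟨fun hx => ⟨hx, pt_other m hih.symm hkh.symm⟩, fun hx => hx.1⟩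
      obtain ⟨i1, i2, i3⟩ := ih _ _ _ r hs' (good_slice h hU) (good_slice h hV)
        (tight_slice h hU hV ht).1 hr'
      refine ⟨i1, fun x hx hxh hl => ?_, fun x hx hxh hl => ?_⟩
      · exact (mem_filter.1 (i2 x (mem_Box_update.2 ⟨hx, hxh⟩) hl)).1
      · exact (mem_filter.1 (i3 x (mem_Box_update.2 ⟨hx, hxh⟩) hl)).1
    rcases Nat.lt_or_ge #S 3 with hsm | hbig
    · -- at most two coordinates
      have two : ∀ i k, i ≠ k → m i ≠ 0 → m k ≠ 0 → ∀ l, l ≠ i → l ≠ k → m l = 0 := by
        intro i k hik hi hk l hli hlk
        by_contra hl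
        have h1 : ({i, k, l} : Finset (Fin n)) ⊆ S := by
          intro a ha
          rw [mem_insert, mem_insert, mem_singleton] at ha
          rcases ha with rfl | rfl | rfl
          · exact (memS _).2 hi
          · exact (memS _).2 hk
          · exact (memS _).2 hl
        have h2 := card_le_card h1
        rw [card_eq_three.2 ⟨i, k, l, hik, hli.symm, hlk.symm, rfl⟩] at h2
        omega
      have dich : ∀ i k, i ≠ k → m i ≠ 0 → m k ≠ 0 →
          (pt m i k ∈ U ∨ pt m i k ∈ V) ∧ ¬ (pt m i k ∈ U ∧ pt m i k ∈ V) :=
        fun i k hik hi hk => pair_dich hik hi hk (two i k hik hi hk) hU hV ht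
      refine ⟨⟨?_, ?_, ?_⟩, ?_, ?_⟩
      · intro i k hik hi hk
        rw [hr i k hik hi hk, hr k i hik.symm hk hi]
        by_contra hc
        rw [not_or] at hc
        have h1 := (dich i k hik hi hk).1.resolve_left hc.1
        have h2 := (dich k i hik.symm hk hi).1.resolve_left hc.2
        exact not_both hik hi hk hV ⟨h1, h2⟩
      · intro i k hik hi hk h1 h2
        rw [hr i k hik hi hk] at h1
        rw [hr k i hik.symm hk hi] at h2
        exact not_both hik hi hk hU ⟨h1, h2⟩
      · intro i j k hij hjk hik hi hj hk
        exact absurd (two i j hij hi hj k hik.symm hjk.symm) hk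
      · rintro x hx ⟨i, hi, hi'⟩
        have hmi := supp_of_ne hx (show x i ≠ 0 by omega)
        by_cases hall : ∀ l, l ≠ i → x l = 0
        · refine hU.nonneg hx (fun l => ?_) (fun h0 => ?_)
          · show (0 : ℤ) ≤ x l
            by_cases hl : l = i
            · rw [hl]
              omega
            · rw [hall l hl]
          · rw [h0] at hi
            simp at hi
        · push Not at hall
          obtain ⟨k, hki, hxk⟩ := hall
          have hmk := supp_of_ne hx hxk
          have h1 := (hr i k hki.symm hmi hmk).1 (hi' k hki hxk)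
          exact hU.up _ h1 x hx (pt_le hki.symm (two i k hki.symm hmi hmk) hx hi)
      · rintro x hx ⟨i, hi, hi'⟩
        have hmi := supp_of_ne hx (show x i ≠ 0 by omega)
        by_cases hall : ∀ l, l ≠ i → x l = 0
        · refine hV.nonneg hx (fun l => ?_) (fun h0 => ?_)
          · show (0 : ℤ) ≤ x l
            by_cases hl : l = i
            · rw [hl]
              omega
            · rw [hall l hl]
          · rw [h0] at hi
            simp at hi
        · push Not at hall
          obtain ⟨k, hki, hxk⟩ := hall
          have hmk := supp_of_ne hx hxk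
          have h1 : pt m k i ∈ U := (hr k i hki hmk hmi).1 (hi' k hki hxk)
          have h2 : pt m i k ∉ U := fun h2 => not_both hki.symm hmi hmk hU ⟨h2, h1⟩
          have h3 := (dich i k hki.symm hmi hmk).1.resolve_left h2
          exact hV.up _ h3 x hx (pt_le hki.symm (two i k hki.symm hmi hmk) hx hi)
    · -- at least three coordinates
      have hlow : Low m U V r := ⟨fun h hh => (IH h hh).2.1, fun h hh => (IH h hh).2.2⟩
      have third : ∀ i k, ∃ h, m h ≠ 0 ∧ h ≠ i ∧ h ≠ k := by
        intro i k
        obtain ⟨h, hhS, hhn⟩ : ∃ h ∈ S, h ∉ ({i, k} : Finset (Fin n)) :=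
          Finset.exists_mem_notMem_of_card_lt_card
            (lt_of_le_of_lt (Finset.card_le_two) (by omega))
        rw [mem_insert, mem_singleton, not_or] at hhn
        exact ⟨h, (memS h).1 hhS, hhn.1, hhn.2⟩
      have tot : ∀ i k, i ≠ k → m i ≠ 0 → m k ≠ 0 → r i k ∨ r k i := by
        intro i k hik hi hk
        obtain ⟨h, hh, h1, h2⟩ := third i k
        refine (IH h hh).1.total i k hik ?_ ?_
        · rw [Function.update_of_ne h1.symm]
          exact hi
        · rw [Function.update_of_ne h2.symm]
          exact hk
      have asy : ∀ i k, i ≠ k → m i ≠ 0 → m k ≠ 0 → r i k → ¬ r k i := by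
        intro i k hik hi hk
        obtain ⟨h, hh, h1, h2⟩ := third i k
        refine (IH h hh).1.asymm i k hik ?_ ?_
        · rw [Function.update_of_ne h1.symm]
          exact hi
        · rw [Function.update_of_ne h2.symm]
          exact hk
      have hlin : IsLin m r := by
        refine ⟨tot, asy, ?_⟩
        intro i j k hij hjk hik hi hj hk h1 h2
        by_cases hex : ∃ h, m h ≠ 0 ∧ h ≠ i ∧ h ≠ j ∧ h ≠ k
        · obtain ⟨h, hh, e1, e2, e3⟩ := hex
          refine (IH h hh).1.trans i j k hij hjk hik ?_ ?_ ?_ h1 h2
          · rw [Function.update_of_ne e1.symm]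
            exact hi
          · rw [Function.update_of_ne e2.symm]
            exact hj
          · rw [Function.update_of_ne e3.symm]
            exact hk
        · by_contra hnot
          have h3 := (tot i k hik hi hk).resolve_left hnot
          refine no_cycle hU hV ht hlow hij hjk hik hi hj hk ?_ h1 h2 h3
          intro l e1 e2 e3
          by_contra hl
          exact hex ⟨l, hl, e1, e2, e3⟩
      refine ⟨hlin, step hU hV ht hlow hlin hbig, ?_⟩
      have ht' : Tight m V U := by
        unfold Tight at ht ⊢
        rw [inter_comm]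
        exact ht
      exact step hV hU ht' hlow.swap hlin.flip hbig

end Pool.Agent.KS6_62.IU
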